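import Mathlib

/-!
# Products of the two matrices `[[1,1],[0,1]]` and `[[1,0],[1,1]]`: exponential growth rates

A finite word is a list of booleans; the product `P l` is taken in the order of the list.
-/

set_option autoImplicit false

namespace Pool.Agent.H45.JR

open Filter Topology

/-- real `2 × 2` matrices -/
abbrev M2 : Type := Matrix (Fin 2) (Fin 2) ℝ

/-- `false ↦ [[1,1],[0,1]]`, `true ↦ [[1,0],[1,1]]` -/
def LA (b : Bool) : M2 := if b then !![1, 0; 1, 1] else !![1, 1; 0, 1]

/-- the product of the matrices of a word -/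
def P : List Bool → M2
  | [] => 1
  | b :: l => LA b * P l

/-- the number of letters `true` -/
def ones : List Bool → ℕ
  | [] => 0
  | b :: l => (if b then 1 else 0) + ones l

@[simp] lemma P_nil : P [] = 1 := rfl
@[simp] lemma P_cons (b : Bool) (l : List Bool) : P (b :: l) = LA b * P l := rfl
@[simp] lemma ones_nil : ones [] = 0 := rfl
@[simp] lemma ones_cons (b : Bool) (l : List Bool) :
    ones (b :: l) = (if b then 1 else 0) + ones l := rfl

lemma P_append (l l' : List Bool) : P (l ++ l') = P l * P l' := by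
  induction l with
  | nil => simp
  | cons b l ih => rw [List.cons_append, P_cons, P_cons, ih, mul_assoc]

lemma ones_append (l l' : List Bool) : ones (l ++ l') = ones l + ones l' := by
  induction l with
  | nil => simp
  | cons b l ih => rw [List.cons_append, ones_cons, ones_cons, ih, add_assoc]

lemma ones_le (l : List Bool) : ones l ≤ l.length := by
  induction l with
  | nil => simp
  | cons b l ih =>
    rw [ones_cons, List.length_cons]
    split_ifs <;> omega

lemma LA_det (b : Bool) : (LA b).det = 1 := by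
  cases b <;> simp [LA, Matrix.det_fin_two]

lemma P_det (l : List Bool) : (P l).det = 1 := by
  induction l with
  | nil => simp
  | cons b l ih => rw [P_cons, Matrix.det_mul, LA_det, ih, one_mul]

lemma det_eq (l : List Bool) : P l 0 0 * P l 1 1 - P l 0 1 * P l 1 0 = 1 := by
  rw [← Matrix.det_fin_two, P_det]

lemma mul_00 (M N : M2) : (M * N) 0 0 = M 0 0 * N 0 0 + M 0 1 * N 1 0 := by
  simp [Matrix.mul_apply, Fin.sum_univ_two]
lemma mul_01 (M N : M2) : (M * N) 0 1 = M 0 0 * N 0 1 + M 0 1 * N 1 1 := by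
  simp [Matrix.mul_apply, Fin.sum_univ_two]
lemma mul_10 (M N : M2) : (M * N) 1 0 = M 1 0 * N 0 0 + M 1 1 * N 1 0 := by
  simp [Matrix.mul_apply, Fin.sum_univ_two]
lemma mul_11 (M N : M2) : (M * N) 1 1 = M 1 0 * N 0 1 + M 1 1 * N 1 1 := by
  simp [Matrix.mul_apply, Fin.sum_univ_two]

/-- nonnegative entries -/
structure NN (M : M2) : Prop where
  a : 0 ≤ M 0 0
  b : 0 ≤ M 0 1
  c : 0 ≤ M 1 0
  d : 0 ≤ M 1 1

lemma NN.mul {M N : M2} (hM : NN M) (hN : NN N) : NN (M * N) := by
  obtain ⟨a, b, c, d⟩ := hM
  obtain ⟨a', b', c', d'⟩ := hN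
  refine ⟨?_, ?_, ?_, ?_⟩
  · rw [mul_00]; positivity
  · rw [mul_01]; positivity
  · rw [mul_10]; positivity
  · rw [mul_11]; positivity

lemma NN_one : NN (1 : M2) := by
  refine ⟨?_, ?_, ?_, ?_⟩ <;> simp

lemma LA_NN (b : Bool) : NN (LA b) := by
  cases b <;> refine ⟨?_, ?_, ?_, ?_⟩ <;> simp [LA]

lemma P_NN (l : List Bool) : NN (P l) := by
  induction l with
  | nil => exact NN_one
  | cons b l ih => exact (LA_NN b).mul ih

lemma NN.pow {M : M2} (hM : NN M) (m : ℕ) : NN (M ^ m) := by
  induction m with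
  | zero => rw [pow_zero]; exact NN_one
  | succ m ih => rw [pow_succ]; exact ih.mul hM

/-- the sum of the entries -/
def s (M : M2) : ℝ := M 0 0 + M 0 1 + M 1 0 + M 1 1

lemma NN.s_nonneg {M : M2} (hM : NN M) : 0 ≤ s M := by
  obtain ⟨a, b, c, d⟩ := hM
  unfold s
  positivity

lemma s_mul_le {M N : M2} (hM : NN M) (hN : NN N) : s (M * N) ≤ s M * s N := by
  obtain ⟨a, b, c, d⟩ := hM
  obtain ⟨a', b', c', d'⟩ := hN
  unfold s
  rw [mul_00, mul_01, mul_10, mul_11]
  have h1 := mul_nonneg a c'
  have h2 := mul_nonneg a d'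
  have h3 := mul_nonneg b a'
  have h4 := mul_nonneg b b'
  have h5 := mul_nonneg c c'
  have h6 := mul_nonneg c d'
  have h7 := mul_nonneg d a'
  have h8 := mul_nonneg d b'
  nlinarith

lemma one_le_s_P (l : List Bool) : 1 ≤ s (P l) := by
  obtain ⟨a, b, c, d⟩ := P_NN l
  have h := det_eq l
  unfold s
  by_contra hlt
  push Not at hlt
  have h1 : P l 0 0 < 1 := by linarith
  have h2 : P l 1 1 < 1 := by linarith
  have h3 : P l 0 0 * P l 1 1 ≤ P l 0 0 * 1 := mul_le_mul_of_nonneg_left h2.le a
  have h4 : 0 ≤ P l 0 1 * P l 1 0 := mul_nonneg b c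
  linarith

lemma s_P_pos (l : List Bool) : 0 < s (P l) := lt_of_lt_of_le one_pos (one_le_s_P l)

/-- `false, true` connects: its product is `[[2,1],[1,1]]` -/
lemma s_connect (l l' : List Bool) : s (P l) * s (P l') ≤ s (P (l ++ ([false, true] ++ l'))) := by
  have hE : P [false, true] = !![2, 1; 1, 1] := by
    simp only [P_cons, P_nil, mul_one, LA, if_true]
    ext i j
    fin_cases i <;> fin_cases j <;> (simp [Matrix.mul_apply, Fin.sum_univ_two]; try norm_num)
  rw [P_append, P_append, hE]
  obtain ⟨a, b, c, d⟩ := P_NN l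
  obtain ⟨a', b', c', d'⟩ := P_NN l'
  unfold s
  simp only [mul_00, mul_01, mul_10, mul_11]
  simp only [Matrix.of_apply, Matrix.cons_val', Matrix.cons_val_zero, Matrix.cons_val_one,
    Matrix.cons_val_fin_one]
  have h1 := mul_nonneg a a'
  have h2 := mul_nonneg a b'
  have h3 := mul_nonneg c a'
  have h4 := mul_nonneg c b'
  nlinarith

/-- the logarithm of the norm of the weighted product -/
noncomputable def G (c : ℝ) (l : List Bool) : ℝ := Real.log (s (P l)) + c * ones l

lemma G_append_le (c : ℝ) (l l' : List Bool) : G c (l ++ l') ≤ G c l + G c l' := by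
  unfold G
  rw [ones_append, P_append]
  have h := s_mul_le (P_NN l) (P_NN l')
  have h1 : Real.log (s (P l * P l')) ≤ Real.log (s (P l)) + Real.log (s (P l')) := by
    rw [← Real.log_mul (s_P_pos l).ne' (s_P_pos l').ne']
    apply Real.log_le_log _ h
    rw [← P_append]
    exact s_P_pos _
  push_cast
  linarith

lemma G_connect (c : ℝ) (l l' : List Bool) :
    G c l + G c l' + c ≤ G c (l ++ ([false, true] ++ l')) := by
  unfold G
  have h1 : Real.log (s (P l)) + Real.log (s (P l')) ≤
      Real.log (s (P (l ++ ([false, true] ++ l')))) := by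
    rw [← Real.log_mul (s_P_pos l).ne' (s_P_pos l').ne']
    exact Real.log_le_log (mul_pos (s_P_pos l) (s_P_pos l')) (s_connect l l')
  rw [ones_append, ones_append]
  have h2 : ones [false, true] = 1 := by simp
  rw [h2]
  push_cast
  linarith

lemma G_lower (c : ℝ) (l : List Bool) : -|c| * l.length ≤ G c l := by
  unfold G
  have h1 : 0 ≤ Real.log (s (P l)) := Real.log_nonneg (one_le_s_P l)
  have h2 : (ones l : ℝ) ≤ l.length := by exact_mod_cast ones_le l
  have h3 : -|c| * (l.length : ℝ) ≤ c * ones l := by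
    have h4 : -|c| ≤ c := neg_abs_le c
    have h5 : (0 : ℝ) ≤ ones l := by positivity
    have h6 : 0 ≤ |c| := abs_nonneg c
    nlinarith
  linarith

/-- the largest value of `G` on the words of length `n` -/
lemma exists_max (c : ℝ) (n : ℕ) : ∃ l : List Bool, l.length = n ∧
    ∀ l' : List Bool, l'.length = n → G c l' ≤ G c l := by
  have hfin : {l : List Bool | l.length = n}.Finite := List.finite_length_eq Bool n
  have hne : {l : List Bool | l.length = n}.Nonempty := ⟨List.replicate n false, by simp⟩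
  obtain ⟨l, hl, hmax⟩ := hfin.exists_maximalFor (G c) _ hne
  refine ⟨l, hl, fun l' hl' => ?_⟩
  by_contra hcon
  push Not at hcon
  exact absurd (hmax hl' hcon.le) (not_le.2 hcon)

/-- the maximum of `G` -/
noncomputable def U (c : ℝ) (n : ℕ) : ℝ := G c (exists_max c n).choose

lemma G_le_U (c : ℝ) (l : List Bool) : G c l ≤ U c l.length :=
  (exists_max c l.length).choose_spec.2 l rfl

lemma exists_U (c : ℝ) (n : ℕ) : ∃ l : List Bool, l.length = n ∧ G c l = U c n :=
  ⟨_, (exists_max c n).choose_spec.1, rfl⟩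

lemma U_sub (c : ℝ) : Subadditive (U c) := by
  intro m n
  obtain ⟨l, hl, h⟩ := exists_U c (m + n)
  rw [← h, ← List.take_append_drop m l]
  refine (G_append_le c _ _).trans ?_
  have h1 := G_le_U c (l.take m)
  have h2 := G_le_U c (l.drop m)
  rw [List.length_take, hl, min_eq_left (Nat.le_add_right m n)] at h1
  rw [List.length_drop, hl, Nat.add_sub_cancel_left] at h2
  linarith

lemma U_super (c : ℝ) (m n : ℕ) : U c m + U c n ≤ U c (m + n) + (U c 2 - c) := by
  obtain ⟨l, hl, h⟩ := exists_U c m
  obtain ⟨l', hl', h'⟩ := exists_U c n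
  have h1 := G_connect c l l'
  have h2 := G_le_U c (l ++ ([false, true] ++ l'))
  have h3 : (l ++ ([false, true] ++ l')).length = (m + n) + 2 := by
    simp [hl, hl']; omega
  rw [h3] at h2
  have h4 := U_sub c (m + n) 2
  linarith

lemma U_lower (c : ℝ) (n : ℕ) : -|c| * n ≤ U c n := by
  obtain ⟨l, hl, h⟩ := exists_U c n
  rw [← h, ← hl]
  exact G_lower c l

/-- `L` is the exponential growth rate for the weight `exp c`, with a constant `K` -/
structure IsExp (c L K : ℝ) : Prop where
  upper : ∀ l : List Bool, G c l ≤ K + L * l.length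
  lower : ∀ n : ℕ, ∃ l : List Bool, l.length = n ∧ L * n ≤ G c l
  tendsto : Tendsto (fun n : ℕ => U c n / n) atTop (𝓝 L)

theorem exists_exp (c : ℝ) : ∃ L K : ℝ, IsExp c L K := by
  have hb : BddBelow (Set.range fun n : ℕ => U c n / n) := by
    refine ⟨-|c|, ?_⟩
    rintro _ ⟨n, rfl⟩
    rcases Nat.eq_zero_or_pos n with h | h
    · subst h; simp
    · have h1 : (0 : ℝ) < n := by exact_mod_cast h
      show -|c| ≤ U c n / n
      rw [le_div_iff₀ h1]
      exact U_lower c n
  set L := (U_sub c).lim with hL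
  have ht : Tendsto (fun n : ℕ => U c n / n) atTop (𝓝 L) := (U_sub c).tendsto_lim hb
  set K := U c 2 - c with hK
  let V : ℕ → ℝ := fun n => K - U c n
  have hV : Subadditive V := by
    intro m n
    have := U_super c m n
    show K - U c (m + n) ≤ (K - U c m) + (K - U c n)
    linarith
  have htK : Tendsto (fun n : ℕ => K / n) atTop (𝓝 0) := tendsto_const_div_atTop_nhds_zero_nat K
  have htV : Tendsto (fun n : ℕ => V n / n) atTop (𝓝 (-L)) := by
    have h1 : Tendsto (fun n : ℕ => K / n - U c n / n) atTop (𝓝 (0 - L)) := htK.sub ht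
    rw [zero_sub] at h1
    refine h1.congr fun n => ?_
    show K / n - U c n / n = (K - U c n) / n
    rw [← sub_div]
  have hbV : BddBelow (Set.range fun n : ℕ => V n / n) := htV.bddBelow_range
  have hlimV : hV.lim = -L := tendsto_nhds_unique (hV.tendsto_lim hbV) htV
  have h0 : U c 0 ≤ K := by
    have := U_super c 0 0
    simp only [add_zero] at this
    linarith
  refine ⟨L, K, ⟨fun l => ?_, fun n => ?_, ht⟩⟩
  · refine (G_le_U c l).trans ?_
    rcases Nat.eq_zero_or_pos l.length with h | h
    · rw [h]; simpa using h0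
    · have h1 : (0 : ℝ) < l.length := by exact_mod_cast h
      have h2 := hV.lim_le_div hbV h.ne'
      rw [hlimV, le_div_iff₀ h1] at h2
      have h3 : -L * (l.length : ℝ) ≤ K - U c l.length := h2
      linarith
  · obtain ⟨l, hl, h⟩ := exists_U c n
    refine ⟨l, hl, ?_⟩
    rw [h]
    rcases Nat.eq_zero_or_pos n with h' | h'
    · subst h'
      have := U_lower c 0
      simp only [Nat.cast_zero, mul_zero] at this ⊢
      exact this
    · have h1 : (0 : ℝ) < n := by exact_mod_cast h'
      have h2 := (U_sub c).lim_le_div hb h'.ne'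
      rw [le_div_iff₀ h1] at h2
      exact h2

end Pool.Agent.H45.JR
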