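import Pool.Agent.H45.JR.Split

/-!
# The number of factors occurring infinitely often
-/

set_option autoImplicit false

namespace Pool.Agent.H45.JR

open Filter Topology

/-- the words of length `n` that occur infinitely often -/
def Fac (x : ℕ → Bool) (n : ℕ) : Set (List Bool) :=
  {u | ∀ N, ∃ i ≥ N, seg x i n = u}

lemma Fac_length {x : ℕ → Bool} {n : ℕ} {u : List Bool} (hu : u ∈ Fac x n) : u.length = n := by
  obtain ⟨i, -, hi⟩ := hu 0
  rw [← hi, seg_length]

lemma Fac_finite (x : ℕ → Bool) (n : ℕ) : (Fac x n).Finite :=
  (List.finite_length_eq Bool n).subset fun _ hu => Fac_length hu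

lemma Fac_append {x : ℕ → Bool} {n m : ℕ} {u v : List Bool} (hu : u.length = m)
    (hv : v.length = n) (h : u ++ v ∈ Fac x (n + m)) : u ∈ Fac x m ∧ v ∈ Fac x n := by
  have key : ∀ i, seg x i (n + m) = u ++ v → seg x (i + n) m = u ∧ seg x i n = v := by
    intro i hi
    rw [seg_add] at hi
    exact List.append_inj hi (by rw [seg_length, hu])
  constructor
  · intro N
    obtain ⟨i, hi, h1⟩ := h N
    exact ⟨i + n, by omega, (key i h1).1⟩
  · intro N
    obtain ⟨i, hi, h1⟩ := h N
    exact ⟨i, hi, (key i h1).2⟩

/-- two different words of the same length differ at a first place -/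
lemma exists_first_diff : ∀ (u v : List Bool), u.length = v.length → u ≠ v →
    ∃ (w : List Bool) (b : Bool) (r r' : List Bool), u = w ++ (b :: r) ∧ v = w ++ ((!b) :: r') := by
  intro u
  induction u with
  | nil =>
    intro v hl hne
    exact absurd (List.length_eq_zero_iff.1 hl.symm).symm hne
  | cons a u ih =>
    intro v hl hne
    cases v with
    | nil => simp at hl
    | cons a' v =>
      by_cases haa : a = a'
      · subst haa
        obtain ⟨w, b, r, r', h1, h2⟩ := ih v (by simpa using hl) (fun h => hne (by rw [h]))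
        exact ⟨a :: w, b, r, r', by rw [h1]; rfl, by rw [h2]; rfl⟩
      · refine ⟨[], a, u, v, rfl, ?_⟩
        have : a' = !a := by cases a <;> cases a' <;> simp_all
        rw [this]; rfl

variable {c L K : ℝ} {x : ℕ → Bool} {k0 : ℕ}

/-- at most one word is extended in both ways -/
theorem special_subsingleton (h : Ext c L K x k0) (n : ℕ) :
    ({u | false :: u ∈ Fac x (n + 1)} ∩ {u | true :: u ∈ Fac x (n + 1)}).Subsingleton := by
  have key : ∀ (w r r' : List Bool), w ++ (false :: r) ∈ {u | false :: u ∈ Fac x (n + 1)} →
      w ++ (true :: r') ∈ {u | true :: u ∈ Fac x (n + 1)} → False := by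
    intro w r r' h1 h2
    simp only [Set.mem_ofPred_eq] at h1 h2
    have l1 := Fac_length h1
    have l2 := Fac_length h2
    simp only [List.length_cons, List.length_append] at l1 l2
    have e1 : false :: (w ++ (false :: r)) = (false :: (w ++ [false])) ++ r := by simp
    have e2 : true :: (w ++ (true :: r')) = (true :: (w ++ [true])) ++ r' := by simp
    rw [e1] at h1
    rw [e2] at h2
    have hn1 : n + 1 = r.length + (w.length + 2) := by omega
    have hn2 : n + 1 = r'.length + (w.length + 2) := by omega
    rw [hn1] at h1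
    rw [hn2] at h2
    have f1 := (Fac_append (by simp) rfl h1).1
    have f2 := (Fac_append (by simp) rfl h2).1
    exact no_split h w f1 f2
  rintro u ⟨hu0, hu1⟩ v ⟨hv0, hv1⟩
  by_contra hne
  have hl : u.length = v.length := by
    have a1 := Fac_length hu0
    have a2 := Fac_length hv0
    simp only [List.length_cons] at a1 a2
    omega
  obtain ⟨w, b, r, r', e1, e2⟩ := exists_first_diff u v hl hne
  cases b
  · rw [e1] at hu0
    rw [e2] at hv1
    exact key w r r' hu0 hv1
  · rw [e1] at hu1
    rw [e2] at hv0
    exact key w r' r hv0 hu1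

theorem Fac_ncard (h : Ext c L K x k0) (n : ℕ) : (Fac x n).ncard ≤ n + 1 := by
  induction n with
  | zero =>
    have : Fac x 0 ⊆ {[]} := by
      intro u hu
      exact List.length_eq_zero_iff.1 (Fac_length hu)
    refine (Set.ncard_le_ncard this (Set.finite_singleton _)).trans ?_
    rw [Set.ncard_singleton]
  | succ n ih =>
    set S0 : Set (List Bool) := {u | false :: u ∈ Fac x (n + 1)} with hS0
    set S1 : Set (List Bool) := {u | true :: u ∈ Fac x (n + 1)} with hS1
    have hs0 : S0 ⊆ Fac x n := by
      intro u hu
      have hu' : [false] ++ u ∈ Fac x (n + 1) := hu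
      have hul : u.length = n := by
        have := Fac_length hu'
        simpa using this
      exact (Fac_append (u := [false]) rfl hul hu').2
    have hs1 : S1 ⊆ Fac x n := by
      intro u hu
      have hu' : [true] ++ u ∈ Fac x (n + 1) := hu
      have hul : u.length = n := by
        have := Fac_length hu'
        simpa using this
      exact (Fac_append (u := [true]) rfl hul hu').2
    have hf0 : S0.Finite := (Fac_finite x n).subset hs0
    have hf1 : S1.Finite := (Fac_finite x n).subset hs1
    have hsub : Fac x (n + 1) ⊆ (List.cons false '' S0) ∪ (List.cons true '' S1) := by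
      intro u hu
      have hl := Fac_length hu
      cases u with
      | nil => simp at hl
      | cons b u =>
        cases b
        · exact Or.inl ⟨u, hu, rfl⟩
        · exact Or.inr ⟨u, hu, rfl⟩
    have c1 : (Fac x (n + 1)).ncard ≤ S0.ncard + S1.ncard := by
      refine (Set.ncard_le_ncard hsub ((hf0.image _).union (hf1.image _))).trans ?_
      refine (Set.ncard_union_le _ _).trans ?_
      exact add_le_add (Set.ncard_image_le hf0) (Set.ncard_image_le hf1)
    have c2 : (S0 ∪ S1).ncard + (S0 ∩ S1).ncard = S0.ncard + S1.ncard :=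
      Set.ncard_union_add_ncard_inter S0 S1 hf0 hf1
    have c3 : (S0 ∪ S1).ncard ≤ (Fac x n).ncard :=
      Set.ncard_le_ncard (Set.union_subset hs0 hs1) (Fac_finite x n)
    have c4 : (S0 ∩ S1).ncard ≤ 1 :=
      (Set.ncard_le_one (hf0.inter_of_left S1)).2 (fun a ha b hb =>
        special_subsingleton h n ha hb)
    omega

/-- all late windows of length `n` occur infinitely often -/
theorem exists_late (x : ℕ → Bool) (n : ℕ) : ∃ N, ∀ i ≥ N, seg x i n ∈ Fac x n := by
  have hfin : ({u : List Bool | u.length = n} \ Fac x n).Finite :=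
    (List.finite_length_eq Bool n).subset Set.sdiff_subset
  have h1 : ∀ u ∈ {u : List Bool | u.length = n} \ Fac x n, ∃ N, ∀ i ≥ N, seg x i n ≠ u := by
    rintro u ⟨-, hu⟩
    by_contra hcon
    push Not at hcon
    exact hu hcon
  have h2 : ∀ᶠ i in atTop, ∀ u ∈ {u : List Bool | u.length = n} \ Fac x n, seg x i n ≠ u := by
    refine (eventually_all_finite hfin).2 fun u hu => ?_
    obtain ⟨N, hN⟩ := h1 u hu
    exact eventually_atTop.2 ⟨N, hN⟩
  obtain ⟨N, hN⟩ := eventually_atTop.1 h2
  refine ⟨N, fun i hi => ?_⟩
  by_contra hcon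
  exact hN i hi (seg x i n) ⟨by simp, hcon⟩ rfl

end Pool.Agent.H45.JR
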