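import Pool.Agent.H45.JR.Basic

/-!
# Bounds of the spectral radius of a word by the growth rate
-/

set_option autoImplicit false

namespace Pool.Agent.H45.JR

open Filter Topology

/-- the `m`-th power of a word -/
def rep : ℕ → List Bool → List Bool
  | 0, _ => []
  | m + 1, V => V ++ rep m V

lemma P_rep (m : ℕ) (V : List Bool) : P (rep m V) = P V ^ m := by
  induction m with
  | zero => simp [rep]
  | succ m ih => rw [rep, P_append, ih, pow_succ']

lemma ones_rep (m : ℕ) (V : List Bool) : ones (rep m V) = m * ones V := by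
  induction m with
  | zero => simp [rep]
  | succ m ih => rw [rep, ones_append, ih]; ring

lemma length_rep (m : ℕ) (V : List Bool) : (rep m V).length = m * V.length := by
  induction m with
  | zero => simp [rep]
  | succ m ih => rw [rep, List.length_append, ih]; ring

lemma nonpos_of_mul_le {x B : ℝ} (h : ∀ m : ℕ, (m : ℝ) * x ≤ B) : x ≤ 0 := by
  by_contra hx
  push Not at hx
  obtain ⟨m, hm⟩ := exists_nat_gt (B / x)
  rw [div_lt_iff₀ hx] at hm
  exact absurd (h m) (not_le.2 hm)

variable {c L K : ℝ}

theorem growth (h : IsExp c L K) (V : List Bool) {k μ : ℝ} (hk : 0 < k) (hμ : 0 < μ)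
    (hm : ∀ m : ℕ, k * μ ^ m ≤ s (P V ^ m)) :
    Real.log μ + c * ones V ≤ L * V.length := by
  have key : ∀ m : ℕ, (m : ℝ) * (Real.log μ + c * ones V - L * V.length) ≤ K - Real.log k := by
    intro m
    have h1 := h.upper (rep m V)
    unfold G at h1
    rw [P_rep, ones_rep, length_rep] at h1
    have h2 : Real.log (k * μ ^ m) ≤ Real.log (s (P V ^ m)) :=
      Real.log_le_log (by positivity) (hm m)
    rw [Real.log_mul hk.ne' (by positivity), Real.log_pow] at h2
    push_cast at h1
    have e : (m : ℝ) * (Real.log μ + c * ones V - L * V.length) =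
      m * Real.log μ + c * (m * ones V) - L * (m * V.length) := by ring
    rw [e]
    linarith
  have := nonpos_of_mul_le key
  linarith

/-- a positive vector `(v, w)` with `P V (v, w) ≥ μ (v, w)` -/
theorem growth_vec (h : IsExp c L K) (V : List Bool) {v w μ : ℝ} (hv : 0 < v) (hw : 0 < w)
    (hμ : 0 < μ) (h0 : μ * v ≤ P V 0 0 * v + P V 0 1 * w)
    (h1 : μ * w ≤ P V 1 0 * v + P V 1 1 * w) :
    Real.log μ + c * ones V ≤ L * V.length := by
  have hT := P_NN V
  have key : ∀ m : ℕ, μ ^ m * v ≤ (P V ^ m) 0 0 * v + (P V ^ m) 0 1 * w ∧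
      μ ^ m * w ≤ (P V ^ m) 1 0 * v + (P V ^ m) 1 1 * w := by
    intro m
    induction m with
    | zero => simp
    | succ m ih =>
      obtain ⟨i0, i1⟩ := ih
      obtain ⟨a, b, c', d⟩ := hT.pow m
      rw [pow_succ (P V) m, mul_00, mul_01, mul_10, mul_11, pow_succ μ m]
      constructor
      · have e1 := mul_le_mul_of_nonneg_left h0 a
        have e2 := mul_le_mul_of_nonneg_left h1 b
        have e3 := mul_le_mul_of_nonneg_left i0 hμ.le
        nlinarith
      · have e1 := mul_le_mul_of_nonneg_left h0 c'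
        have e2 := mul_le_mul_of_nonneg_left h1 d
        have e3 := mul_le_mul_of_nonneg_left i1 hμ.le
        nlinarith
  refine growth h V (k := v / (v + w)) (by positivity) hμ fun m => ?_
  obtain ⟨i0, i1⟩ := key m
  obtain ⟨a, b, c', d⟩ := hT.pow m
  rw [div_mul_eq_mul_div, div_le_iff₀ (by positivity)]
  unfold s
  have e1 := mul_nonneg a hw.le
  have e2 := mul_nonneg b hv.le
  have e3 := mul_nonneg c' hv.le
  have e4 := mul_nonneg c' hw.le
  have e5 := mul_nonneg d hv.le
  have e6 := mul_nonneg d hw.le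
  nlinarith

/-- an eigenvalue -/
theorem growth_eig (h : IsExp c L K) (V : List Bool) {μ : ℝ} (hμ : 0 < μ)
    (hd : μ ^ 2 - (P V 0 0 + P V 1 1) * μ + 1 = 0) :
    Real.log μ + c * ones V ≤ L * V.length := by
  have hdet : (P V - μ • (1 : M2)).det = 0 := by
    rw [Matrix.det_fin_two]
    have := det_eq V
    simp only [Matrix.sub_apply, Matrix.smul_apply, Matrix.one_apply_eq, smul_eq_mul, mul_one]
    have e1 : (1 : M2) 0 1 = 0 := by simp
    have e2 : (1 : M2) 1 0 = 0 := by simp
    rw [e1, e2]
    nlinarith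
  obtain ⟨x, hx0, hx⟩ := Matrix.exists_mulVec_eq_zero_iff.2 hdet
  have hx' : (P V).mulVec x = μ • x := by
    rw [Matrix.sub_mulVec, Matrix.smul_mulVec, Matrix.one_mulVec, sub_eq_zero] at hx
    exact hx
  have hpow : ∀ m : ℕ, (P V ^ m).mulVec x = μ ^ m • x := by
    intro m
    induction m with
    | zero => simp
    | succ m ih =>
      rw [pow_succ', ← Matrix.mulVec_mulVec, ih, Matrix.mulVec_smul, hx', smul_smul, pow_succ]
  have hpos : 0 < |x 0| + |x 1| := by
    by_contra hcon
    push Not at hcon
    have h0 : |x 0| = 0 := le_antisymm (by linarith [abs_nonneg (x 1)]) (abs_nonneg _)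
    have h1 : |x 1| = 0 := le_antisymm (by linarith [abs_nonneg (x 0)]) (abs_nonneg _)
    apply hx0
    ext i
    fin_cases i
    · simpa using h0
    · simpa using h1
  refine growth h V (k := 1) one_pos hμ fun m => ?_
  have hm := hpow m
  have e0 : (P V ^ m) 0 0 * x 0 + (P V ^ m) 0 1 * x 1 = μ ^ m * x 0 := by
    have := congrFun hm 0
    simpa [Matrix.mulVec, dotProduct, Fin.sum_univ_two] using this
  have e1 : (P V ^ m) 1 0 * x 0 + (P V ^ m) 1 1 * x 1 = μ ^ m * x 1 := by
    have := congrFun hm 1
    simpa [Matrix.mulVec, dotProduct, Fin.sum_univ_two] using this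
  obtain ⟨a, b, c', d⟩ := (P_NN V).pow m
  have hμm : 0 < μ ^ m := by positivity
  have f0 : μ ^ m * |x 0| ≤ (P V ^ m) 0 0 * |x 0| + (P V ^ m) 0 1 * |x 1| := by
    rw [← abs_of_pos hμm, ← abs_mul, ← e0]
    refine (abs_add_le _ _).trans ?_
    rw [abs_mul, abs_mul, abs_of_nonneg a, abs_of_nonneg b]
  have f1 : μ ^ m * |x 1| ≤ (P V ^ m) 1 0 * |x 0| + (P V ^ m) 1 1 * |x 1| := by
    rw [← abs_of_pos hμm, ← abs_mul, ← e1]
    refine (abs_add_le _ _).trans ?_
    rw [abs_mul, abs_mul, abs_of_nonneg c', abs_of_nonneg d]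
  have g0 := abs_nonneg (x 0)
  have g1 := abs_nonneg (x 1)
  have : μ ^ m * (|x 0| + |x 1|) ≤ s (P V ^ m) * (|x 0| + |x 1|) := by
    unfold s
    have t1 := mul_nonneg a g1
    have t2 := mul_nonneg b g0
    have t3 := mul_nonneg c' g1
    have t4 := mul_nonneg d g0
    nlinarith
  rw [one_mul]
  exact le_of_mul_le_mul_right this hpos

/-- the normalised trace of a word is at most one plus the normalised determinant -/
theorem trace_le (h : IsExp c L K) (V : List Bool) (hV : c * ones V - L * V.length ≤ 0) :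
    Real.exp (c * ones V - L * V.length) * (P V 0 0 + P V 1 1) ≤
      1 + Real.exp (c * ones V - L * V.length) ^ 2 := by
  by_contra hcon
  push Not at hcon
  set w := Real.exp (c * ones V - L * V.length) with hw
  set t := P V 0 0 + P V 1 1 with ht
  have hw0 : 0 < w := Real.exp_pos _
  have hw1 : w ≤ 1 := Real.exp_le_one_iff.2 hV
  have ht2 : 2 ≤ t := by
    by_contra ht'
    push Not at ht'
    nlinarith [sq_nonneg (w - 1)]
  have hd : 0 ≤ t ^ 2 - 4 := by nlinarith
  set r := Real.sqrt (t ^ 2 - 4) with hr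
  have hr2 : r ^ 2 = t ^ 2 - 4 := Real.sq_sqrt hd
  have hr0 : 0 ≤ r := Real.sqrt_nonneg _
  set μ := (t + r) / 2 with hμ
  have hμ0 : 0 < μ := by rw [hμ]; linarith
  have hq : μ ^ 2 - t * μ + 1 = 0 := by rw [hμ]; nlinarith
  have hlog := growth_eig h V hμ0 hq
  have hwμ : w * μ ≤ 1 := by
    have h1 : Real.log (w * μ) ≤ 0 := by
      rw [Real.log_mul hw0.ne' hμ0.ne', hw, Real.log_exp]
      linarith
    have h2 : 0 < w * μ := by positivity
    rwa [Real.log_nonpos_iff h2.le] at h1
  -- `μ` is the larger root, so `w μ > 1`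
  have h3 : (w * μ) ^ 2 - (w * t) * (w * μ) + w ^ 2 = 0 := by
    have : (w * μ) ^ 2 - (w * t) * (w * μ) + w ^ 2 = w ^ 2 * (μ ^ 2 - t * μ + 1) := by ring
    rw [this, hq, mul_zero]
  have h4 : w * t ≤ 2 * (w * μ) := by
    have : t ≤ 2 * μ := by rw [hμ]; linarith
    nlinarith
  -- `(1 - w μ) (1 - w (t - μ)) = 1 - w t + w ^ 2 < 0`
  have h5 : (1 - w * μ) * (1 - (w * t - w * μ)) = 1 - w * t + w ^ 2 := by nlinarith
  have h6 : 0 ≤ 1 - w * μ := by linarith
  have h7 : 0 ≤ 1 - (w * t - w * μ) := by linarith
  have h8 := mul_nonneg h6 h7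
  linarith

lemma P_false (k : ℕ) : P (List.replicate k false) = !![1, (k : ℝ); 0, 1] := by
  induction k with
  | zero =>
    rw [List.replicate_zero, P_nil]
    ext i j; fin_cases i <;> fin_cases j <;> simp
  | succ k ih =>
    rw [List.replicate_succ, P_cons, ih]
    ext i j; fin_cases i <;> fin_cases j <;>
      simp [LA, Matrix.mul_apply, Fin.sum_univ_two]

lemma P_true (k : ℕ) : P (List.replicate k true) = !![1, 0; (k : ℝ), 1] := by
  induction k with
  | zero =>
    rw [List.replicate_zero, P_nil]
    ext i j; fin_cases i <;> fin_cases j <;> simp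
  | succ k ih =>
    rw [List.replicate_succ, P_cons, ih]
    ext i j; fin_cases i <;> fin_cases j <;>
      simp [LA, Matrix.mul_apply, Fin.sum_univ_two]
    ring

lemma ones_replicate (k : ℕ) (b : Bool) : ones (List.replicate k b) = if b then k else 0 := by
  induction k with
  | zero => simp
  | succ k ih =>
    rw [List.replicate_succ, ones_cons, ih]
    split_ifs <;> omega

theorem L_pos (h : IsExp c L K) : 0 < L ∧ c < L := by
  obtain ⟨k, hk⟩ := exists_nat_gt (Real.exp |c|)
  have hk0 : 0 < (k : ℝ) := (Real.exp_pos _).trans hk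
  have hlog : |c| < Real.log (k + 1) := by
    rw [Real.lt_log_iff_exp_lt (by linarith)]
    linarith
  constructor
  · have h1 := growth_vec h (List.replicate k false ++ [true]) (v := k) (w := 1) (μ := k + 1)
      hk0 one_pos (by linarith) (by
        rw [P_append, P_false, P_cons, P_nil, mul_one, mul_00, mul_01]
        simp [LA]; nlinarith) (by
        rw [P_append, P_false, P_cons, P_nil, mul_one, mul_10, mul_11]
        simp [LA])
    have e1 : ones (List.replicate k false ++ [true]) = 1 := by
      rw [ones_append, ones_replicate]; simp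
    rw [e1, List.length_append, List.length_replicate] at h1
    simp only [List.length_singleton] at h1
    push_cast at h1
    have h2 := neg_abs_le c
    have h3 : 0 < L * (k + 1) := by linarith
    exact (mul_pos_iff_of_pos_right (by linarith)).1 h3
  · have h1 := growth_vec h (false :: List.replicate k true) (v := 1) (w := 1) (μ := k + 1)
      one_pos one_pos (by linarith) (by
        rw [P_cons, P_true, mul_00, mul_01]
        simp [LA]) (by
        rw [P_cons, P_true, mul_10, mul_11]
        simp [LA])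
    have e1 : ones (false :: List.replicate k true) = k := by
      rw [ones_cons, ones_replicate]; simp
    rw [e1, List.length_cons, List.length_replicate] at h1
    push_cast at h1
    have h2 := le_abs_self c
    have h3 : 0 < (L - c) * (k + 1) := by nlinarith
    have h4 : 0 < L - c := (mul_pos_iff_of_pos_right (by linarith)).1 h3
    linarith

end Pool.Agent.H45.JR
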