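import Pool.Agent.H45.JR.Comp

/-!
# Three collinear growth rates with an irrational slope are impossible
-/

set_option autoImplicit false

namespace Pool.Agent.H45.JR

open Filter Topology

variable {c L K : ℝ} {x : ℕ → Bool} {k0 : ℕ}

/-- the column sums form -/
def colf (l : List Bool) (v w : ℝ) : ℝ := (P l 0 0 + P l 1 0) * v + (P l 0 1 + P l 1 1) * w

lemma colf_nonneg (l : List Bool) {v w : ℝ} (hv : 0 ≤ v) (hw : 0 ≤ w) : 0 ≤ colf l v w :=
  add_nonneg (mul_nonneg (add_nonneg (P_NN l).a (P_NN l).c) hv)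
    (mul_nonneg (add_nonneg (P_NN l).b (P_NN l).d) hw)

lemma colf_mono (l : List Bool) {v w v' w' : ℝ} (hv : v ≤ v') (hw : w ≤ w') :
    colf l v w ≤ colf l v' w' := by
  unfold colf
  have h1 := add_nonneg (P_NN l).a (P_NN l).c
  have h2 := add_nonneg (P_NN l).b (P_NN l).d
  exact add_le_add (mul_le_mul_of_nonneg_left hv h1) (mul_le_mul_of_nonneg_left hw h2)

lemma colf_le (l : List Bool) {v w B : ℝ} (hv : v ≤ B) (hw : w ≤ B) :
    colf l v w ≤ s (P l) * B := by
  refine (colf_mono l hv hw).trans (le_of_eq ?_)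
  unfold colf s
  ring

lemma colf_smul (l : List Bool) (t v w : ℝ) : colf l (t * v) (t * w) = t * colf l v w := by
  unfold colf; ring

/-- the extremal norm along the orbit -/
noncomputable def H (c L : ℝ) (x : ℕ → Bool) (n : ℕ) : ℝ :=
  ⨆ l : List Bool, om c L l * colf l (v0 c L x n) (v1 c L x n)

lemma H_bdd (h : Ext c L K x k0) (n : ℕ) :
    BddAbove (Set.range fun l : List Bool => om c L l * colf l (v0 c L x n) (v1 c L x n)) := by
  refine ⟨Real.exp K * Real.exp K, ?_⟩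
  rintro _ ⟨l, rfl⟩
  obtain ⟨⟨-, h2⟩, -, h4⟩ := v_box h n
  have h5 := colf_le l h2 h4
  have h6 := h.om_s_up l
  have h7 := om_pos c L l
  show om c L l * colf l (v0 c L x n) (v1 c L x n) ≤ _
  calc _ ≤ om c L l * (s (P l) * Real.exp K) := mul_le_mul_of_nonneg_left h5 h7.le
    _ = (om c L l * s (P l)) * Real.exp K := by ring
    _ ≤ _ := mul_le_mul_of_nonneg_right h6 (Real.exp_pos K).le

lemma le_H (h : Ext c L K x k0) (n : ℕ) (l : List Bool) :
    om c L l * colf l (v0 c L x n) (v1 c L x n) ≤ H c L x n :=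
  le_ciSup (H_bdd h n) l

lemma H_low (h : Ext c L K x k0) (n : ℕ) : lo K k0 ≤ H c L x n := by
  refine le_trans ?_ (le_H h n [])
  obtain ⟨⟨h1, -⟩, h3, -⟩ := v_box h n
  have h4 := lo_pos K k0
  rw [om_nil]
  unfold colf
  simp
  linarith

lemma H_add (h : Ext c L K x k0) (i n : ℕ) : H c L x (i + n) ≤ H c L x i := by
  refine ciSup_le fun l => ?_
  refine le_trans (le_of_eq ?_) (le_H h i (l ++ seg x i n))
  rw [v0_add, v1_add, om_append]
  unfold colf
  rw [P_append, mul_00, mul_01, mul_10, mul_11]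
  ring

lemma H_anti (h : Ext c L K x k0) : Antitone (H c L x) := by
  intro i j hij
  obtain ⟨n, rfl⟩ := Nat.exists_eq_add_of_le hij
  exact H_add h i n

lemma H_late (h : Ext c L K x k0) {η : ℝ} (hη : 0 < η) :
    ∃ N, ∀ i ≥ N, ∀ j ≥ i, (1 - η) * H c L x i ≤ H c L x j := by
  have hb : BddBelow (Set.range (H c L x)) := ⟨lo K k0, by rintro _ ⟨n, rfl⟩; exact H_low h n⟩
  have ht := tendsto_atTop_ciInf (H_anti h) hb
  set H' := ⨅ n, H c L x n with hH'
  have hlow : lo K k0 ≤ H' := le_ciInf fun n => H_low h n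
  have hl := lo_pos K k0
  have h0 : 0 < H' := by linarith
  have h1 : H' < H' * (1 + η) := by nlinarith
  obtain ⟨N, hN⟩ := eventually_atTop.1 (ht.eventually (gt_mem_nhds h1))
  refine ⟨N, fun i hi j hj => ?_⟩
  have h2 := hN i hi
  have h3 : H' ≤ H c L x j := ciInf_le hb j
  have h4 : 0 < H c L x i := by linarith [H_low h i]
  rcases lt_or_ge η 1 with h5 | h5
  · have h6 : (1 - η) * H c L x i ≤ (1 - η) * (H' * (1 + η)) :=
      mul_le_mul_of_nonneg_left h2.le (by linarith)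
    nlinarith [sq_nonneg η]
  · have : (1 - η) * H c L x i ≤ 0 := mul_nonpos_of_nonpos_of_nonneg (by linarith) h4.le
    linarith

lemma H_ratio (h : Ext c L K x k0) {i j : ℕ} {r : ℝ} (hr : 0 ≤ r)
    (h0 : v0 c L x j ≤ r * v0 c L x i) (h1 : v1 c L x j ≤ r * v1 c L x i) :
    H c L x j ≤ r * H c L x i := by
  refine ciSup_le fun l => ?_
  have h2 := colf_mono l h0 h1
  rw [colf_smul] at h2
  have h3 := le_H h i l
  have h4 := om_pos c L l
  calc om c L l * colf l (v0 c L x j) (v1 c L x j) ≤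
      om c L l * (r * colf l (v0 c L x i) (v1 c L x i)) := mul_le_mul_of_nonneg_left h2 h4.le
    _ = r * (om c L l * colf l (v0 c L x i) (v1 c L x i)) := by ring
    _ ≤ _ := mul_le_mul_of_nonneg_left h3 hr

/-- the constant of the contraction -/
noncomputable def Cst (K : ℝ) (k0 : ℕ) : ℝ := Real.exp K ^ 2 / lo K k0 ^ 2

lemma det_block (h : Ext c L K x k0) {i j m : ℕ} (hb : seg x i m = seg x j m) :
    |v0 c L x (j + m) / v0 c L x (i + m) - v1 c L x (j + m) / v1 c L x (i + m)| ≤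
      Cst K k0 * Real.exp (-(min L (L - c) * m)) := by
  obtain ⟨⟨a1, a2⟩, a3, a4⟩ := v_box h (i + m)
  obtain ⟨⟨b1, b2⟩, b3, b4⟩ := v_box h i
  obtain ⟨⟨d1, d2⟩, d3, d4⟩ := v_box h j
  have hl := lo_pos K k0
  have hν := nu_pos h.exp
  have p0 : 0 < v0 c L x (i + m) := by linarith
  have p1 : 0 < v1 c L x (i + m) := by linarith
  have e1 : v0 c L x (j + m) / v0 c L x (i + m) - v1 c L x (j + m) / v1 c L x (i + m) =
      om c L (seg x j m) ^ 2 *
        (v0 c L x j * v1 c L x i - v1 c L x j * v0 c L x i) /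
          (v0 c L x (i + m) * v1 c L x (i + m)) := by
    rw [div_sub_div _ _ p0.ne' p1.ne']
    congr 1
    rw [v0_add, v1_add, v0_add, v1_add, hb]
    have := det_eq (seg x j m)
    linear_combination (om c L (seg x j m) ^ 2 *
        (v0 c L x j * v1 c L x i - v1 c L x j * v0 c L x i)) * this
  rw [e1, abs_div, abs_mul]
  have ho := om_pos c L (seg x j m)
  have ho2 := om_le c L (seg x j m)
  rw [seg_length] at ho2
  have hexp : Real.exp (-(min L (L - c) * m)) ≤ 1 := by
    rw [Real.exp_le_one_iff]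
    have : 0 ≤ min L (L - c) * (m : ℝ) := by positivity
    linarith
  have ho3 : om c L (seg x j m) ^ 2 ≤ Real.exp (-(min L (L - c) * m)) := by
    nlinarith [Real.exp_pos (-(min L (L - c) * m))]
  have hdet : |v0 c L x j * v1 c L x i - v1 c L x j * v0 c L x i| ≤ Real.exp K ^ 2 := by
    have q1 : 0 ≤ v0 c L x j * v1 c L x i :=
      mul_nonneg (v0_nonneg c L x j) (v1_nonneg c L x i)
    have q2 : 0 ≤ v1 c L x j * v0 c L x i :=
      mul_nonneg (v1_nonneg c L x j) (v0_nonneg c L x i)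
    have q3 : v0 c L x j * v1 c L x i ≤ Real.exp K * Real.exp K :=
      mul_le_mul d2 b4 (v1_nonneg c L x i) (Real.exp_pos K).le
    have q4 : v1 c L x j * v0 c L x i ≤ Real.exp K * Real.exp K :=
      mul_le_mul d4 b2 (v0_nonneg c L x i) (Real.exp_pos K).le
    rw [abs_le]
    constructor <;> nlinarith
  rw [abs_of_pos (show 0 < om c L (seg x j m) ^ 2 by positivity),
    abs_of_pos (mul_pos p0 p1), div_le_iff₀ (mul_pos p0 p1)]
  have hden : lo K k0 ^ 2 ≤ v0 c L x (i + m) * v1 c L x (i + m) := by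
    rw [sq]
    exact mul_le_mul a1 a3 hl.le p0.le
  have hE := Real.exp_pos (-(min L (L - c) * m))
  have e2 : Cst K k0 * lo K k0 ^ 2 = Real.exp K ^ 2 := by
    unfold Cst
    rw [div_mul_cancel₀]
    positivity
  calc om c L (seg x j m) ^ 2 * |v0 c L x j * v1 c L x i - v1 c L x j * v0 c L x i| ≤
      Real.exp (-(min L (L - c) * m)) * Real.exp K ^ 2 :=
        mul_le_mul ho3 hdet (abs_nonneg _) hE.le
    _ = Cst K k0 * Real.exp (-(min L (L - c) * m)) * lo K k0 ^ 2 := by rw [← e2]; ring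
    _ ≤ _ := mul_le_mul_of_nonneg_left hden (by unfold Cst; positivity)

/-- the late returns with the same past are almost eigenvectors -/
theorem near_eig (h : Ext c L K x k0) (m : ℕ) :
    ∃ N, ∀ i ≥ N, ∀ j ≥ i, seg x i m = seg x j m →
      (1 - 2 * (Cst K k0 * Real.exp (-(min L (L - c) * m)))) * v0 c L x (i + m) ≤
        v0 c L x (j + m) ∧
      (1 - 2 * (Cst K k0 * Real.exp (-(min L (L - c) * m)))) * v1 c L x (i + m) ≤
        v1 c L x (j + m) := by
  have hC : 0 < Cst K k0 := by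
    have := lo_pos K k0
    unfold Cst; positivity
  set E := Cst K k0 * Real.exp (-(min L (L - c) * m)) with hE
  have hE0 : 0 < E := by positivity
  obtain ⟨N, hN⟩ := H_late h hE0
  refine ⟨N, fun i hi j hj hb => ?_⟩
  have h1 := hN (i + m) (by omega) (j + m) (by omega)
  have h2 := det_block h hb
  rw [← hE] at h2
  obtain ⟨⟨a1, a2⟩, a3, a4⟩ := v_box h (i + m)
  obtain ⟨⟨b1, b2⟩, b3, b4⟩ := v_box h (j + m)
  have hl := lo_pos K k0
  have p0 : 0 < v0 c L x (i + m) := by linarith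
  have p1 : 0 < v1 c L x (i + m) := by linarith
  set a := v0 c L x (j + m) / v0 c L x (i + m) with ha
  set b := v1 c L x (j + m) / v1 c L x (i + m) with hb'
  have ha' : v0 c L x (j + m) = a * v0 c L x (i + m) := by
    rw [ha, div_mul_cancel₀ _ p0.ne']
  have hb'' : v1 c L x (j + m) = b * v1 c L x (i + m) := by
    rw [hb', div_mul_cancel₀ _ p1.ne']
  have ha0 : 0 ≤ a := by rw [ha]; exact div_nonneg (by linarith) p0.le
  have hmax : 1 - E ≤ max a b := by
    have h3 := H_ratio h (i := i + m) (j := j + m) (r := max a b) (le_max_of_le_left ha0)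
      (by rw [ha']; exact mul_le_mul_of_nonneg_right (le_max_left _ _) p0.le)
      (by rw [hb'']; exact mul_le_mul_of_nonneg_right (le_max_right _ _) p1.le)
    have h4 : 0 < H c L x (i + m) := by linarith [H_low h (i + m)]
    exact le_of_mul_le_mul_right (h1.trans h3) h4
  rw [abs_le] at h2
  have hab : 1 - 2 * E ≤ a ∧ 1 - 2 * E ≤ b := by
    rcases le_max_iff.1 hmax with h3 | h3
    · exact ⟨by linarith, by linarith⟩
    · exact ⟨by linarith, by linarith⟩
  rw [ha', hb'']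
  exact ⟨mul_le_mul_of_nonneg_right hab.1 p0.le, mul_le_mul_of_nonneg_right hab.2 p1.le⟩

lemma log_ge {E : ℝ} (h1 : E ≤ 1 / 2) (h0 : 0 ≤ E) : -(2 * E) ≤ Real.log (1 - E) := by
  have h2 : 0 < 1 - E := by linarith
  have h3 := Real.one_sub_inv_le_log_of_pos h2
  have h4 : (1 - E)⁻¹ ≤ 1 + 2 * E := by
    rw [inv_eq_one_div, div_le_iff₀ h2]
    nlinarith
  linarith

/-- the number of letters `true` in a nearly closed window -/
theorem ones_close (h : Ext c L K x k0) {γ a La Ka : ℝ} (ha : IsExp a La Ka)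
    (hL : La + γ * (c - a) ≤ L) {i n : ℕ} {E : ℝ} (hE0 : 0 ≤ E) (hE1 : E ≤ 1 / 2)
    (h0 : (1 - E) * v0 c L x i ≤ v0 c L x (i + n))
    (h1 : (1 - E) * v1 c L x i ≤ v1 c L x (i + n)) :
    -(2 * E) ≤ (c - a) * (ones (seg x i n) - γ * n) := by
  obtain ⟨⟨a1, a2⟩, a3, a4⟩ := v_box h i
  have hl := lo_pos K k0
  have p0 : 0 < v0 c L x i := by linarith
  have p1 : 0 < v1 c L x i := by linarith
  have ho := om_pos c L (seg x i n)
  have h2 : 0 < 1 - E := by linarith
  rw [v0_add] at h0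
  rw [v1_add] at h1
  have h3 := growth_vec ha (seg x i n) (μ := (1 - E) / om c L (seg x i n)) p0 p1 (by positivity)
    (by rw [div_mul_eq_mul_div, div_le_iff₀ ho]; linarith)
    (by rw [div_mul_eq_mul_div, div_le_iff₀ ho]; linarith)
  rw [Real.log_div h2.ne' ho.ne', seg_length] at h3
  have h4 : Real.log (om c L (seg x i n)) = c * ones (seg x i n) - L * n := by
    unfold om
    rw [Real.log_exp, seg_length]
  rw [h4] at h3
  have h5 := log_ge hE1 hE0
  have h6 : (La + γ * (c - a)) * (n : ℝ) ≤ L * n :=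
    mul_le_mul_of_nonneg_right hL (by positivity)
  linarith

lemma exists_close {γ : ℝ} (hγ : Irrational γ) (t : ℝ) {ε : ℝ} (hε : 0 < ε) (N : ℕ) :
    ∃ n ≥ N, ∃ z : ℤ, |γ * (n : ℝ) - z - t| < ε := by
  have hd : DenseRange (· • (γ : AddCircle (1 : ℝ)) : ℤ → AddCircle (1 : ℝ)) :=
    AddCircle.denseRange_zsmul_coe_iff.2 (by simpa using hγ)
  have hc : MapClusterPt ((t : ℝ) : AddCircle (1 : ℝ)) atTop
      (fun n : ℕ => n • (γ : AddCircle (1 : ℝ))) := by
    refine ((mapClusterPt_atTop_nsmul_tfae ((t : ℝ) : AddCircle (1 : ℝ))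
      (γ : AddCircle (1 : ℝ))).out 3 0).1 ?_
    have := hd.closure_range
    rw [this]
    trivial
  have h1 : ∃ᶠ n : ℕ in atTop, n • (γ : AddCircle (1 : ℝ)) ∈
      Metric.ball ((t : ℝ) : AddCircle (1 : ℝ)) ε :=
    hc.frequently (Metric.ball_mem_nhds _ hε)
  obtain ⟨n, hn, hmem⟩ := (frequently_atTop.1 h1) N
  refine ⟨n, hn, round (γ * n - t), ?_⟩
  rw [Metric.mem_ball, dist_eq_norm] at hmem
  have e : n • (γ : AddCircle (1 : ℝ)) - ((t : ℝ) : AddCircle (1 : ℝ)) =
      ((γ * n - t : ℝ) : AddCircle (1 : ℝ)) := by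
    rw [← AddCircle.coe_nsmul, ← AddCircle.coe_sub]
    congr 1
    simp [mul_comm]
  rw [e] at hmem
  have h2 := UnitAddCircle.norm_eq (x := γ * n - t)
  have h3 : ‖((γ * n - t : ℝ) : AddCircle (1 : ℝ))‖ = |γ * n - t - round (γ * n - t)| := h2
  rw [h3] at hmem
  rw [show γ * (n : ℝ) - (round (γ * n - t) : ℝ) - t = γ * n - t - round (γ * n - t) by ring]
  exact hmem

lemma exists_m {ν A : ℝ} (hν : 0 < ν) (hA : 0 < A) :
    ∃ m : ℕ, 1 ≤ m ∧ ((m : ℝ) + 2) * Real.exp (-(ν * m)) < A := by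
  obtain ⟨m, hm⟩ := exists_nat_gt (6 / (ν ^ 2 * A) + 1)
  have hm1 : 1 < (m : ℝ) := by
    have : 0 < 6 / (ν ^ 2 * A) := by positivity
    linarith
  have hm2 : 6 / (ν ^ 2 * A) < m := by linarith
  refine ⟨m, by exact_mod_cast hm1.le, ?_⟩
  rw [div_lt_iff₀ (by positivity)] at hm2
  have hνm : 0 ≤ ν * (m : ℝ) := by positivity
  have h1 := Real.quadratic_le_exp_of_nonneg hνm
  rw [Real.exp_neg, ← div_eq_mul_inv, div_lt_iff₀ (Real.exp_pos _)]
  have h2 : (ν * m) ^ 2 / 2 ≤ Real.exp (ν * m) := by linarith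
  have h3 : (m : ℝ) + 2 ≤ 3 * m := by linarith
  have h4 : 3 * (m : ℝ) < A * ((ν * m) ^ 2 / 2) := by nlinarith
  have h5 : A * ((ν * m) ^ 2 / 2) ≤ A * Real.exp (ν * m) := mul_le_mul_of_nonneg_left h2 hA.le
  linarith

lemma int_aux {M : ℕ} (k k' : Fin M) (hne : k ≠ k') (Z : ℤ)
    (h : |(M : ℝ) * Z - ((k' : ℕ) - (k : ℕ) : ℝ)| < 1) : False := by
  have h1 : |(M : ℤ) * Z - ((k' : ℕ) - (k : ℕ) : ℤ)| < 1 := by
    have : ((|(M : ℤ) * Z - ((k' : ℕ) - (k : ℕ) : ℤ)| : ℤ) : ℝ) < ((1 : ℤ) : ℝ) := by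
      push_cast
      exact h
    exact_mod_cast this
  have h2 : (M : ℤ) * Z - ((k' : ℕ) - (k : ℕ) : ℤ) = 0 := Int.abs_lt_one_iff.1 h1
  have hk : ((k : ℕ) : ℤ) < M := by exact_mod_cast k.2
  have hk' : ((k' : ℕ) : ℤ) < M := by exact_mod_cast k'.2
  have hk0 : (0 : ℤ) ≤ ((k : ℕ) : ℤ) := by positivity
  have hk0' : (0 : ℤ) ≤ ((k' : ℕ) : ℤ) := by positivity
  have hZ : Z = 0 := by
    by_contra hZ
    rcases lt_or_gt_of_ne hZ with h3 | h3
    · nlinarith
    · nlinarith
  rw [hZ, mul_zero] at h2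
  apply hne
  apply Fin.ext
  have : ((k' : ℕ) : ℤ) = ((k : ℕ) : ℤ) := by linarith
  exact_mod_cast this.symm

/-- no three points on a line of irrational slope -/
theorem no_collinear {γ a b La Lb Ka Kb : ℝ} (hγ : Irrational γ) (hac : a < c) (hcb : c < b)
    (ha : IsExp a La Ka) (hb : IsExp b Lb Kb) (h : Ext c L K x k0)
    (h1 : La + γ * (c - a) ≤ L) (h2 : Lb + γ * (c - b) ≤ L) : False := by
  have hν := nu_pos h.exp
  set ν := min L (L - c) with hνdef
  have hC : 0 < Cst K k0 := by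
    have := lo_pos K k0
    unfold Cst; positivity
  set C := Cst K k0 with hCdef
  set δ := min (c - a) (b - c) with hδ
  have hδ0 : 0 < δ := by rw [hδ, lt_min_iff]; exact ⟨by linarith, by linarith⟩
  have hδ1 : δ ≤ c - a := min_le_left _ _
  have hδ2 : δ ≤ b - c := min_le_right _ _
  have hA : 0 < min (δ / (8 * C)) (1 / (2 * C)) := by
    rw [lt_min_iff]; exact ⟨by positivity, by positivity⟩
  obtain ⟨m, hm1, hm⟩ := exists_m hν hA
  have hmA := hm.trans_le (min_le_left _ _)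
  have hmB := hm.trans_le (min_le_right _ _)
  rw [lt_div_iff₀ (by positivity)] at hmA hmB
  set X := Real.exp (-(ν * m)) with hX
  have hX0 : 0 < X := Real.exp_pos _
  set E := 2 * (C * X) with hE
  have hE0 : 0 ≤ E := by positivity
  have hm0 : (0 : ℝ) ≤ m := by positivity
  have hE1 : E ≤ 1 / 2 := by
    have : 0 ≤ C * X * m := by positivity
    nlinarith
  have hE2 : 4 * ((m : ℝ) + 2) * E < δ := by nlinarith
  obtain ⟨N1, hN1⟩ := near_eig h m
  obtain ⟨N2, hN2⟩ := exists_late x m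
  have hM : (0 : ℝ) < (m : ℝ) + 2 := by positivity
  have hclose : ∀ k : Fin (m + 2), ∃ n ≥ max N1 N2 + m, ∃ z : ℤ,
      |γ * (n : ℝ) - z - (k : ℕ) / ((m : ℝ) + 2)| < 1 / (4 * ((m : ℝ) + 2)) := fun k =>
    exists_close hγ _ (by positivity) _
  choose t ht z hz using hclose
  have hmaps : ∀ k ∈ (Set.univ : Set (Fin (m + 2))), seg x (t k - m) m ∈ Fac x m := by
    intro k _
    refine hN2 _ ?_
    have := ht k
    have := le_max_right N1 N2
    omega
  obtain ⟨k, -, k', -, hne, hkk⟩ := Set.exists_ne_map_eq_of_ncard_lt_of_maps_to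
    (s := (Set.univ : Set (Fin (m + 2)))) (t := Fac x m)
    (by
      rw [Set.ncard_univ, Nat.card_eq_fintype_card, Fintype.card_fin]
      have := Fac_ncard h m
      omega) (f := fun k => seg x (t k - m) m) hmaps (Fac_finite x m)
  have key : ∀ k k' : Fin (m + 2), k ≠ k' → seg x (t k - m) m = seg x (t k' - m) m →
      t k ≤ t k' → False := by
    intro k k' hne hkk hle
    have b1 := ht k
    have b2 := ht k'
    have b3 := le_max_left N1 N2
    obtain ⟨n, hn⟩ := Nat.exists_eq_add_of_le hle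
    have h3 := hN1 (t k - m) (by omega) (t k' - m) (by omega) hkk
    have e1 : t k - m + m = t k := by omega
    have e2 : t k' - m + m = t k + n := by omega
    rw [e1, e2] at h3
    have h4 := ones_close h ha h1 hE0 hE1 h3.1 h3.2
    have h5 := ones_close h hb h2 hE0 hE1 h3.1 h3.2
    set o := ones (seg x (t k) n) with ho
    set y : ℝ := (o : ℝ) - γ * n with hy
    -- `|y|` is small
    have hy1 : -(1 / 2) < ((m : ℝ) + 2) * y := by
      rcases le_or_gt 0 y with h6 | h6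
      · have := mul_nonneg hM.le h6
        linarith
      · have h7 : δ * (-y) ≤ (c - a) * (-y) := mul_le_mul_of_nonneg_right hδ1 (by linarith)
        have h8 : δ * (-y) ≤ 2 * E := by linarith
        have h9 : (4 * ((m : ℝ) + 2)) * (δ * (-y)) ≤ (4 * ((m : ℝ) + 2)) * (2 * E) :=
          mul_le_mul_of_nonneg_left h8 (by positivity)
        have h10 : δ * (4 * (((m : ℝ) + 2) * (-y))) < δ * 2 := by nlinarith
        have h11 := lt_of_mul_lt_mul_left h10 hδ0.le
        linarith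
    have hy2 : ((m : ℝ) + 2) * y < 1 / 2 := by
      rcases le_or_gt y 0 with h6 | h6
      · have := mul_nonneg hM.le (neg_nonneg.2 h6)
        linarith
      · have h7 : δ * y ≤ (b - c) * y := mul_le_mul_of_nonneg_right hδ2 h6.le
        have h8 : δ * y ≤ 2 * E := by linarith
        have h9 : (4 * ((m : ℝ) + 2)) * (δ * y) ≤ (4 * ((m : ℝ) + 2)) * (2 * E) :=
          mul_le_mul_of_nonneg_left h8 (by positivity)
        have h10 : δ * (4 * (((m : ℝ) + 2) * y)) < δ * 2 := by nlinarith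
        have h11 := lt_of_mul_lt_mul_left h10 hδ0.le
        linarith
    have z1 := hz k
    have z2 := hz k'
    have hn' : (t k' : ℝ) = t k + n := by exact_mod_cast hn
    rw [hn'] at z2
    have w1 : |((m : ℝ) + 2) * (γ * t k - z k) - (k : ℕ)| < 1 / 4 := by
      have e : ((m : ℝ) + 2) * (γ * t k - z k) - (k : ℕ) =
          ((m : ℝ) + 2) * (γ * t k - z k - (k : ℕ) / ((m : ℝ) + 2)) := by
        field_simp
      rw [e, abs_mul, abs_of_pos hM]
      calc _ < ((m : ℝ) + 2) * (1 / (4 * ((m : ℝ) + 2))) := mul_lt_mul_of_pos_left z1 hM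
        _ = 1 / 4 := by field_simp
    have w2 : |((m : ℝ) + 2) * (γ * (t k + n) - z k') - (k' : ℕ)| < 1 / 4 := by
      have e : ((m : ℝ) + 2) * (γ * (t k + n) - z k') - (k' : ℕ) =
          ((m : ℝ) + 2) * (γ * (t k + n) - z k' - (k' : ℕ) / ((m : ℝ) + 2)) := by
        field_simp
      rw [e, abs_mul, abs_of_pos hM]
      calc _ < ((m : ℝ) + 2) * (1 / (4 * ((m : ℝ) + 2))) := mul_lt_mul_of_pos_left z2 hM
        _ = 1 / 4 := by field_simp
    refine int_aux k k' hne ((o : ℤ) - z k' + z k) ?_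
    rw [abs_lt] at w1 w2 ⊢
    push_cast
    obtain ⟨w1a, w1b⟩ := w1
    obtain ⟨w2a, w2b⟩ := w2
    rw [hy] at hy1 hy2
    constructor <;> nlinarith
  rcases le_total (t k) (t k') with hle | hle
  · exact key k k' hne hkk hle
  · exact key k' k (Ne.symm hne) hkk.symm hle

/-- an extremal sequence with ratio `γ` gives a supporting line of slope `γ` -/
theorem support {γ b Lb Kb : ℝ} (h : Ext c L K x k0) (hb : IsExp b Lb Kb)
    (hr : Tendsto (fun n : ℕ => (ones (seg x 0 n) : ℝ) / n) atTop (𝓝 γ)) :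
    L + γ * (b - c) ≤ Lb := by
  have h1 : ∀ n : ℕ, 1 ≤ n → L + (b - c) * ((ones (seg x 0 n) : ℝ) / n) ≤
      (Kb + 2 * K) / n + Lb := by
    intro n hn
    have hn0 : (0 : ℝ) < n := by exact_mod_cast hn
    have h2 := h.low 0 n
    have h3 := hb.upper (seg x 0 n)
    rw [seg_length] at h3
    unfold G at h2 h3
    have h4 : L * n + (b - c) * ones (seg x 0 n) ≤ (Kb + 2 * K) + Lb * n := by linarith
    have h5 : (L + (b - c) * ((ones (seg x 0 n) : ℝ) / n)) * n ≤
        ((Kb + 2 * K) / n + Lb) * n := by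
      have e1 : (L + (b - c) * ((ones (seg x 0 n) : ℝ) / n)) * n =
          L * n + (b - c) * ones (seg x 0 n) := by field_simp
      have e2 : ((Kb + 2 * K) / n + Lb) * n = (Kb + 2 * K) + Lb * n := by field_simp
      rw [e1, e2]
      exact h4
    exact le_of_mul_le_mul_right h5 hn0
  have t1 : Tendsto (fun n : ℕ => L + (b - c) * ((ones (seg x 0 n) : ℝ) / n)) atTop
      (𝓝 (L + (b - c) * γ)) := (hr.const_mul _).const_add _
  have t2 : Tendsto (fun n : ℕ => (Kb + 2 * K) / (n : ℝ) + Lb) atTop (𝓝 (0 + Lb)) :=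
    (tendsto_const_div_atTop_nhds_zero_nat _).add_const _
  have h2 := le_of_tendsto_of_tendsto t1 t2 (by
    filter_upwards [eventually_ge_atTop 1] with n hn using h1 n hn)
  linarith

/-- two parameters with the same irrational slope coincide -/
theorem unique_param {γ a b La Ka Lb Kb : ℝ} {xa xb : ℕ → Bool} {ka kb : ℕ}
    (hγ : Irrational γ) (ha : Ext a La Ka xa ka) (hb : Ext b Lb Kb xb kb)
    (hra : Tendsto (fun n : ℕ => (ones (seg xa 0 n) : ℝ) / n) atTop (𝓝 γ))
    (hrb : Tendsto (fun n : ℕ => (ones (seg xb 0 n) : ℝ) / n) atTop (𝓝 γ)) :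
    ¬ a < b := by
  intro hab
  obtain ⟨L, K, x, k0, h⟩ := exists_Ext ((a + b) / 2)
  exact no_collinear hγ (by linarith) (by linarith) ha.exp hb.exp h
    (support ha h.exp hra) (support hb h.exp hrb)

end Pool.Agent.H45.JR
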