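import Pool.Agent.H45.JR.Growth

/-!
# Extremal sequences and their orbits
-/

set_option autoImplicit false

namespace Pool.Agent.H45.JR

open Filter Topology

/-- the window of length `n` starting at time `i`, latest letter first -/
def seg (x : ℕ → Bool) (i : ℕ) : ℕ → List Bool
  | 0 => []
  | n + 1 => x (i + n) :: seg x i n

@[simp] lemma seg_zero (x : ℕ → Bool) (i : ℕ) : seg x i 0 = [] := rfl

lemma seg_succ (x : ℕ → Bool) (i n : ℕ) : seg x i (n + 1) = x (i + n) :: seg x i n := rfl

@[simp] lemma seg_length (x : ℕ → Bool) (i n : ℕ) : (seg x i n).length = n := by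
  induction n with
  | zero => rfl
  | succ n ih => rw [seg_succ, List.length_cons, ih]

lemma seg_add (x : ℕ → Bool) (i n m : ℕ) :
    seg x i (n + m) = seg x (i + n) m ++ seg x i n := by
  induction m with
  | zero => simp
  | succ m ih => rw [← add_assoc, seg_succ, ih, seg_succ, List.cons_append, add_assoc]

lemma seg_succ' (x : ℕ → Bool) (i n : ℕ) : seg x i (n + 1) = seg x (i + 1) n ++ [x i] := by
  have h := seg_add x i 1 n
  rw [add_comm] at h
  rw [h]
  rfl

lemma seg_congr {x y : ℕ → Bool} {i n : ℕ} (h : ∀ t < n, x (i + t) = y (i + t)) :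
    seg x i n = seg y i n := by
  induction n with
  | zero => rfl
  | succ n ih =>
    rw [seg_succ, seg_succ, h n (Nat.lt_succ_self n), ih fun t ht => h t (by omega)]

lemma exists_seg (l : List Bool) : ∃ y : ℕ → Bool, seg y 0 l.length = l := by
  induction l with
  | nil => exact ⟨fun _ => false, rfl⟩
  | cons b l ih =>
    obtain ⟨y, hy⟩ := ih
    refine ⟨Function.update y l.length b, ?_⟩
    rw [List.length_cons, seg_succ, zero_add, Function.update_self]
    congr 1
    refine Eq.trans (seg_congr fun t ht => ?_) hy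
    rw [zero_add, Function.update_of_ne (by omega)]

variable {c L K : ℝ}

theorem exists_extremal (h : IsExp c L K) :
    ∃ x : ℕ → Bool, ∀ i n : ℕ, L * n - 2 * K ≤ G c (seg x i n) := by
  choose l hl hG using h.lower
  have hy : ∀ N, ∃ y : ℕ → Bool, seg y 0 N = l N := by
    intro N
    obtain ⟨y, hy⟩ := exists_seg (l N)
    rw [hl N] at hy
    exact ⟨y, hy⟩
  choose y hy using hy
  have hfin : ∀ N i n, i + n ≤ N → L * n - 2 * K ≤ G c (seg (y N) i n) := by
    intro N i n hN
    obtain ⟨r, rfl⟩ := Nat.exists_eq_add_of_le hN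
    have e : seg (y (i + n + r)) 0 (i + n + r) =
        seg (y (i + n + r)) (i + n) r ++
          (seg (y (i + n + r)) i n ++ seg (y (i + n + r)) 0 i) := by
      rw [seg_add, seg_add, zero_add, zero_add]
    have h1 := hG (i + n + r)
    rw [← hy (i + n + r), e] at h1
    have h2 := G_append_le c (seg (y (i + n + r)) (i + n) r)
      (seg (y (i + n + r)) i n ++ seg (y (i + n + r)) 0 i)
    have h3 := G_append_le c (seg (y (i + n + r)) i n) (seg (y (i + n + r)) 0 i)
    have h4 := h.upper (seg (y (i + n + r)) (i + n) r)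
    have h5 := h.upper (seg (y (i + n + r)) 0 i)
    rw [seg_length] at h4 h5
    push_cast at h1
    nlinarith
  let 𝒰 : Ultrafilter ℕ := hyperfilter ℕ
  have hev : ∀ t, ∃ b : Bool, ∀ᶠ N in (𝒰 : Filter ℕ), y N t = b := by
    intro t
    rcases 𝒰.em fun N => y N t = true with h1 | h1
    · exact ⟨true, h1⟩
    · exact ⟨false, h1.mono fun N hN => by simpa using hN⟩
  choose x hx using hev
  refine ⟨x, fun i n => ?_⟩
  have h1 : ∀ᶠ N in (𝒰 : Filter ℕ), ∀ t < n, x (i + t) = y N (i + t) := by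
    have : ∀ t ∈ Set.Iio n, ∀ᶠ N in (𝒰 : Filter ℕ), x (i + t) = y N (i + t) :=
      fun t _ => (hx (i + t)).mono fun N hN => hN.symm
    exact (eventually_all_finite (Set.finite_Iio n)).2 this
  have h2 : ∀ᶠ N in (𝒰 : Filter ℕ), i + n ≤ N := by
    have : (𝒰 : Filter ℕ) ≤ atTop := by
      rw [← Nat.cofinite_eq_atTop]
      exact hyperfilter_le_cofinite
    exact this (eventually_ge_atTop (i + n))
  obtain ⟨N, hN1, hN2⟩ := (h1.and h2).exists
  rw [seg_congr hN1]
  exact hfin N i n hN2

lemma exists_log_lt (L C : ℝ) (hL : 0 < L) : ∃ k : ℕ, Real.log (k + 3) + C < L * (k + 1) := by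
  have h1 : Tendsto (fun k : ℕ => Real.log ((k : ℝ) + 3) / ((k : ℝ) + 3)) atTop (𝓝 0) := by
    have h2 : Tendsto (fun t : ℝ => Real.log t / t) atTop (𝓝 0) := by
      have := Real.isLittleO_log_id_atTop.tendsto_div_nhds_zero
      simpa using this
    have h3 : Tendsto (fun k : ℕ => (k : ℝ) + 3) atTop atTop :=
      tendsto_atTop_add_const_right _ _ tendsto_natCast_atTop_atTop
    exact h2.comp h3
  have h4 : ∀ᶠ k : ℕ in atTop, Real.log ((k : ℝ) + 3) / ((k : ℝ) + 3) < L / 2 :=
    h1.eventually (gt_mem_nhds (by linarith))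
  have h5 : ∀ᶠ k : ℕ in atTop, (C + 2 * L) / (L / 2) < (k : ℝ) := by
    have : Tendsto (fun k : ℕ => (k : ℝ)) atTop atTop := tendsto_natCast_atTop_atTop
    exact this.eventually_gt_atTop _
  obtain ⟨k, hk1, hk2⟩ := (h4.and h5).exists
  refine ⟨k, ?_⟩
  rw [div_lt_iff₀ (by positivity)] at hk1
  rw [div_lt_iff₀ (by positivity)] at hk2
  nlinarith

lemma seg_const {x : ℕ → Bool} {i n : ℕ} {b : Bool} (h : ∀ t < n, x (i + t) = b) :
    seg x i n = List.replicate n b := by
  induction n with
  | zero => rfl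
  | succ n ih =>
    rw [seg_succ, List.replicate_succ, h n (Nat.lt_succ_self n), ih fun t ht => h t (by omega)]

/-- runs are bounded -/
theorem exists_run_bound (h : IsExp c L K) {x : ℕ → Bool}
    (hx : ∀ i n : ℕ, L * n - 2 * K ≤ G c (seg x i n)) :
    ∃ k0 : ℕ, ∀ (i : ℕ) (b : Bool), ∃ t ≤ k0, x (i + t) = b := by
  obtain ⟨hL, hcL⟩ := L_pos h
  obtain ⟨k, hk⟩ := exists_log_lt (min L (L - c)) (2 * K) (by
    rw [lt_min_iff]; exact ⟨hL, by linarith⟩)
  refine ⟨k, fun i b => ?_⟩
  by_contra hcon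
  push Not at hcon
  have h1 : ∀ t < k + 1, x (i + t) = !b := by
    intro t ht
    have := hcon t (by omega)
    cases b <;> cases hxt : x (i + t) <;> simp_all
  have h2 := hx i (k + 1)
  rw [seg_const h1] at h2
  have hm1 : min L (L - c) ≤ L := min_le_left _ _
  have hm2 : min L (L - c) ≤ L - c := min_le_right _ _
  unfold G at h2
  cases b
  · rw [Bool.not_false, P_true, ones_replicate] at h2
    have e : s !![1, 0; (((k + 1 : ℕ) : ℕ) : ℝ), 1] = k + 3 := by
      simp [s]; ring
    rw [e] at h2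
    simp only [if_true] at h2
    push_cast at h2
    nlinarith
  · rw [Bool.not_true, P_false, ones_replicate] at h2
    have e : s !![1, (((k + 1 : ℕ) : ℕ) : ℝ); 0, 1] = k + 3 := by
      simp [s]; ring
    rw [e] at h2
    simp only [Bool.false_eq_true, if_false] at h2
    push_cast at h2
    nlinarith

/-- the weight of a word -/
noncomputable def om (c L : ℝ) (l : List Bool) : ℝ := Real.exp (c * ones l - L * l.length)

lemma om_pos (c L : ℝ) (l : List Bool) : 0 < om c L l := Real.exp_pos _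

lemma om_nil (c L : ℝ) : om c L [] = 1 := by simp [om]

lemma om_append (c L : ℝ) (l l' : List Bool) : om c L (l ++ l') = om c L l * om c L l' := by
  unfold om
  rw [← Real.exp_add, ones_append, List.length_append]
  congr 1
  push_cast
  ring

lemma om_s (c L : ℝ) (l : List Bool) : om c L l * s (P l) = Real.exp (G c l - L * l.length) := by
  unfold om G
  nth_rewrite 1 [← Real.exp_log (s_P_pos l)]
  rw [← Real.exp_add]
  congr 1
  ring

lemma exponent_le (c L : ℝ) (l : List Bool) :
    c * ones l - L * l.length ≤ - (min L (L - c) * l.length) := by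
  have h1 : (ones l : ℝ) ≤ l.length := by exact_mod_cast ones_le l
  have h2 : (0 : ℝ) ≤ ones l := by positivity
  have hm1 : min L (L - c) ≤ L := min_le_left _ _
  have hm2 : min L (L - c) ≤ L - c := min_le_right _ _
  have h3 := mul_le_mul_of_nonneg_right hm1 (sub_nonneg.2 h1)
  have h4 := mul_le_mul_of_nonneg_right hm2 h2
  nlinarith

lemma om_le (c L : ℝ) (l : List Bool) : om c L l ≤ Real.exp (- (min L (L - c) * l.length)) :=
  Real.exp_le_exp.2 (exponent_le c L l)

/-- the data of an extremal sequence with bounded runs -/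
structure Ext (c L K : ℝ) (x : ℕ → Bool) (k0 : ℕ) : Prop where
  exp : IsExp c L K
  low : ∀ i n : ℕ, L * n - 2 * K ≤ G c (seg x i n)
  run : ∀ (i : ℕ) (b : Bool), ∃ t ≤ k0, x (i + t) = b

theorem exists_Ext (c : ℝ) : ∃ L K x k0, Ext c L K x k0 := by
  obtain ⟨L, K, h⟩ := exists_exp c
  obtain ⟨x, hx⟩ := exists_extremal h
  obtain ⟨k0, hk⟩ := exists_run_bound h hx
  exact ⟨L, K, x, k0, h, hx, hk⟩

variable {x : ℕ → Bool} {k0 : ℕ}

lemma Ext.om_s_low (h : Ext c L K x k0) (i n : ℕ) :
    Real.exp (-(2 * K)) ≤ om c L (seg x i n) * s (P (seg x i n)) := by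
  rw [om_s, Real.exp_le_exp, seg_length]
  have := h.low i n
  linarith

lemma Ext.om_s_up (h : Ext c L K x k0) (l : List Bool) :
    om c L l * s (P l) ≤ Real.exp K := by
  rw [om_s, Real.exp_le_exp]
  have := h.exp.upper l
  linarith

/-- the row ratios of long windows -/
lemma ratio_step (x : ℕ → Bool) (i n : ℕ) (f : M2 → ℝ × ℝ)
    (hf : ∀ (b : Bool) (l : List Bool), 0 ≤ (f (P l)).1 ∧ 0 ≤ (f (P l)).2 ∧
      (f (P (b :: l))).1 = (if b then (f (P l)).1 else (f (P l)).1 + (f (P l)).2) ∧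
      (f (P (b :: l))).2 = (if b then (f (P l)).1 + (f (P l)).2 else (f (P l)).2))
    {r : ℝ} (hr : 1 ≤ r) (h : (f (P (seg x i n))).1 ≤ r * (f (P (seg x i n))).2) (j : ℕ) :
    (f (P (seg x i (n + j)))).1 ≤ (r + j) * (f (P (seg x i (n + j)))).2 := by
  induction j with
  | zero => simpa using h
  | succ j ih =>
    rw [← add_assoc, seg_succ]
    obtain ⟨h1, h2, h3, h4⟩ := hf (x (i + (n + j))) (seg x i (n + j))
    rw [h3, h4]
    split_ifs
    · push_cast
      have hj : (0 : ℝ) ≤ j := by positivity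
      have h5 : 0 ≤ (r + j - 1) := by linarith
      nlinarith [mul_nonneg h5 h1, mul_nonneg h5 h2]
    · push_cast
      nlinarith

lemma ratio_step' (x : ℕ → Bool) (i n : ℕ) (f : M2 → ℝ × ℝ)
    (hf : ∀ (b : Bool) (l : List Bool), 0 ≤ (f (P l)).1 ∧ 0 ≤ (f (P l)).2 ∧
      (f (P (b :: l))).1 = (if b then (f (P l)).1 else (f (P l)).1 + (f (P l)).2) ∧
      (f (P (b :: l))).2 = (if b then (f (P l)).1 + (f (P l)).2 else (f (P l)).2))
    {r : ℝ} (hr : 1 ≤ r) (h : (f (P (seg x i n))).2 ≤ r * (f (P (seg x i n))).1) (j : ℕ) :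
    (f (P (seg x i (n + j)))).2 ≤ (r + j) * (f (P (seg x i (n + j)))).1 := by
  induction j with
  | zero => simpa using h
  | succ j ih =>
    rw [← add_assoc, seg_succ]
    obtain ⟨h1, h2, h3, h4⟩ := hf (x (i + (n + j))) (seg x i (n + j))
    rw [h3, h4]
    split_ifs
    · push_cast
      nlinarith
    · push_cast
      have hj : (0 : ℝ) ≤ j := by positivity
      have h5 : 0 ≤ (r + j - 1) := by linarith
      nlinarith [mul_nonneg h5 h1, mul_nonneg h5 h2]

/-- balanced after a run bound, or from the beginning if balanced there -/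
lemma ratio_all (hrun : ∀ (i : ℕ) (b : Bool), ∃ t ≤ k0, x (i + t) = b) (i n : ℕ)
    (f : M2 → ℝ × ℝ)
    (hf : ∀ (b : Bool) (l : List Bool), 0 ≤ (f (P l)).1 ∧ 0 ≤ (f (P l)).2 ∧
      (f (P (b :: l))).1 = (if b then (f (P l)).1 else (f (P l)).1 + (f (P l)).2) ∧
      (f (P (b :: l))).2 = (if b then (f (P l)).1 + (f (P l)).2 else (f (P l)).2))
    (hn : k0 + 1 ≤ n ∨ (f 1).1 = (f 1).2) :
    (f (P (seg x i n))).1 ≤ (k0 + 1) * (f (P (seg x i n))).2 ∧
    (f (P (seg x i n))).2 ≤ (k0 + 1) * (f (P (seg x i n))).1 := by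
  have hnn : ∀ l, 0 ≤ (f (P l)).1 ∧ 0 ≤ (f (P l)).2 := fun l => ⟨(hf true l).1, (hf true l).2.1⟩
  rcases Nat.lt_or_ge n (k0 + 1) with hlt | hge
  · have h1 : (f 1).1 = (f 1).2 := by
      rcases hn with h | h
      · omega
      · exact h
    have hnk : (n : ℝ) ≤ k0 := by exact_mod_cast Nat.lt_succ_iff.1 hlt
    have h2 := ratio_step x i 0 f hf (r := 1) le_rfl (by
      rw [seg_zero, P_nil, h1, one_mul]) n
    have h3 := ratio_step' x i 0 f hf (r := 1) le_rfl (by
      rw [seg_zero, P_nil, h1, one_mul]) n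
    rw [zero_add] at h2 h3
    constructor
    · refine h2.trans (mul_le_mul_of_nonneg_right (by linarith) (hnn _).2)
    · refine h3.trans (mul_le_mul_of_nonneg_right (by linarith) (hnn _).1)
  · obtain ⟨m, rfl⟩ := Nat.exists_eq_add_of_le hge
    constructor
    · obtain ⟨t, ht, hxt⟩ := hrun (i + m) true
      have h1 : (f (P (seg x i (m + t + 1)))).1 ≤ 1 * (f (P (seg x i (m + t + 1)))).2 := by
        obtain ⟨a1, a2, a3, a4⟩ := hf (x (i + (m + t))) (seg x i (m + t))
        rw [seg_succ, a3, a4]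
        rw [← add_assoc, hxt]
        simp only [if_true]
        linarith
      have h2 := ratio_step x i (m + t + 1) f hf le_rfl h1 (k0 - t)
      have e : m + t + 1 + (k0 - t) = k0 + 1 + m := by omega
      rw [e] at h2
      refine h2.trans (mul_le_mul_of_nonneg_right ?_ (hnn _).2)
      have : ((k0 - t : ℕ) : ℝ) ≤ k0 := by exact_mod_cast Nat.sub_le _ _
      linarith
    · obtain ⟨t, ht, hxt⟩ := hrun (i + m) false
      have h1 : (f (P (seg x i (m + t + 1)))).2 ≤ 1 * (f (P (seg x i (m + t + 1)))).1 := by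
        obtain ⟨a1, a2, a3, a4⟩ := hf (x (i + (m + t))) (seg x i (m + t))
        rw [seg_succ, a3, a4]
        rw [← add_assoc, hxt]
        simp only [Bool.false_eq_true, if_false]
        linarith
      have h2 := ratio_step' x i (m + t + 1) f hf le_rfl h1 (k0 - t)
      have e : m + t + 1 + (k0 - t) = k0 + 1 + m := by omega
      rw [e] at h2
      refine h2.trans (mul_le_mul_of_nonneg_right ?_ (hnn _).1)
      have : ((k0 - t : ℕ) : ℝ) ≤ k0 := by exact_mod_cast Nat.sub_le _ _
      linarith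

end Pool.Agent.H45.JR
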