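import Pool.Agent.H45.JR.Orbit

/-!
# The factors occurring infinitely often in an extremal sequence are balanced
-/

set_option autoImplicit false

namespace Pool.Agent.H45.JR

open Filter Topology

variable {c L K : ℝ} {x : ℕ → Bool} {k0 : ℕ}

lemma LA_true : LA true = !![1, 0; 1, 1] := rfl
lemma LA_false : LA false = !![1, 1; 0, 1] := rfl

lemma cons_00 (b : Bool) (M : M2) : (LA b * M) 0 0 = if b then M 0 0 else M 0 0 + M 1 0 := by
  cases b <;> simp [LA, mul_00]
lemma cons_01 (b : Bool) (M : M2) : (LA b * M) 0 1 = if b then M 0 1 else M 0 1 + M 1 1 := by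
  cases b <;> simp [LA, mul_01]
lemma cons_10 (b : Bool) (M : M2) : (LA b * M) 1 0 = if b then M 0 0 + M 1 0 else M 1 0 := by
  cases b <;> simp [LA, mul_10]
lemma cons_11 (b : Bool) (M : M2) : (LA b * M) 1 1 = if b then M 0 1 + M 1 1 else M 1 1 := by
  cases b <;> simp [LA, mul_11]

lemma snoc_00 (b : Bool) (M : M2) : (M * LA b) 0 0 = if b then M 0 0 + M 0 1 else M 0 0 := by
  cases b <;> simp [LA, mul_00]
lemma snoc_01 (b : Bool) (M : M2) : (M * LA b) 0 1 = if b then M 0 1 else M 0 0 + M 0 1 := by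
  cases b <;> simp [LA, mul_01]

lemma row0 (hrun : ∀ (i : ℕ) (b : Bool), ∃ t ≤ k0, x (i + t) = b) (i n : ℕ)
    (hn : k0 + 1 ≤ n) : P (seg x i n) 1 0 ≤ (k0 + 1) * P (seg x i n) 0 0 := by
  refine (ratio_all hrun i n (fun M => (M 0 0, M 1 0)) (fun b l => ?_) (Or.inl hn)).2
  refine ⟨(P_NN l).a, (P_NN l).c, ?_, ?_⟩
  · show P (b :: l) 0 0 = _
    rw [P_cons, cons_00]
  · show P (b :: l) 1 0 = _
    rw [P_cons, cons_10]

lemma row1 (hrun : ∀ (i : ℕ) (b : Bool), ∃ t ≤ k0, x (i + t) = b) (i n : ℕ)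
    (hn : k0 + 1 ≤ n) : P (seg x i n) 1 1 ≤ (k0 + 1) * P (seg x i n) 0 1 := by
  refine (ratio_all hrun i n (fun M => (M 0 1, M 1 1)) (fun b l => ?_) (Or.inl hn)).2
  refine ⟨(P_NN l).b, (P_NN l).d, ?_, ?_⟩
  · show P (b :: l) 0 1 = _
    rw [P_cons, cons_01]
  · show P (b :: l) 1 1 = _
    rw [P_cons, cons_11]

lemma col_aux (x : ℕ → Bool) (m : ℕ) : ∀ (j i : ℕ), x (i + j) = true →
    P (seg x i (m + 1 + j)) 0 1 ≤ (1 + j) * P (seg x i (m + 1 + j)) 0 0 := by
  intro j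
  induction j with
  | zero =>
    intro i hi
    rw [add_zero, seg_succ', P_append, P_cons, P_nil, mul_one, snoc_01, snoc_00]
    rw [add_zero] at hi
    have h1 := (P_NN (seg x (i + 1) m)).a
    rw [hi]
    simp only [if_true, Nat.cast_zero, add_zero, one_mul]
    linarith
  | succ j ih =>
    intro i hi
    have h := ih (i + 1) (by rw [← hi]; congr 1; ring)
    have h1 := (P_NN (seg x (i + 1) (m + 1 + j))).a
    have h2 := (P_NN (seg x (i + 1) (m + 1 + j))).b
    rw [← add_assoc, seg_succ', P_append, P_cons, P_nil, mul_one, snoc_01, snoc_00]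
    have hj : (0 : ℝ) ≤ j := by positivity
    split_ifs
    · push_cast
      nlinarith
    · push_cast
      nlinarith

lemma col0 (hrun : ∀ (i : ℕ) (b : Bool), ∃ t ≤ k0, x (i + t) = b) (i n : ℕ)
    (hn : k0 + 1 ≤ n) : P (seg x i n) 0 1 ≤ (k0 + 1) * P (seg x i n) 0 0 := by
  obtain ⟨t, ht, hxt⟩ := hrun i true
  have h := col_aux x (n - 1 - t) t i hxt
  have e : n - 1 - t + 1 + t = n := by omega
  rw [e] at h
  refine h.trans (mul_le_mul_of_nonneg_right ?_ (P_NN _).a)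
  have : (t : ℝ) ≤ k0 := by exact_mod_cast ht
  linarith

theorem entry_ge (hrun : ∀ (i : ℕ) (b : Bool), ∃ t ≤ k0, x (i + t) = b) (i n : ℕ)
    (hn : k0 + 1 ≤ n) : s (P (seg x i n)) ≤ (k0 + 2) ^ 2 * P (seg x i n) 0 0 := by
  have h1 := row0 hrun i n hn
  have h2 := row1 hrun i n hn
  have h3 := col0 hrun i n hn
  have h4 : ((k0 : ℝ) + 1) * P (seg x i n) 0 1 ≤
      ((k0 : ℝ) + 1) * (((k0 : ℝ) + 1) * P (seg x i n) 0 0) :=
    mul_le_mul_of_nonneg_left h3 (by positivity)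
  unfold s
  nlinarith

/-- the normalised orbit of `(1, 1)` -/
noncomputable def v0 (c L : ℝ) (x : ℕ → Bool) (n : ℕ) : ℝ :=
  om c L (seg x 0 n) * (P (seg x 0 n) 0 0 + P (seg x 0 n) 0 1)
/-- the normalised orbit of `(1, 1)` -/
noncomputable def v1 (c L : ℝ) (x : ℕ → Bool) (n : ℕ) : ℝ :=
  om c L (seg x 0 n) * (P (seg x 0 n) 1 0 + P (seg x 0 n) 1 1)

lemma v0_add (c L : ℝ) (x : ℕ → Bool) (i n : ℕ) :
    v0 c L x (i + n) = om c L (seg x i n) *
      (P (seg x i n) 0 0 * v0 c L x i + P (seg x i n) 0 1 * v1 c L x i) := by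
  unfold v0 v1
  rw [seg_add, zero_add, om_append, P_append, mul_00, mul_01]
  ring

lemma v1_add (c L : ℝ) (x : ℕ → Bool) (i n : ℕ) :
    v1 c L x (i + n) = om c L (seg x i n) *
      (P (seg x i n) 1 0 * v0 c L x i + P (seg x i n) 1 1 * v1 c L x i) := by
  unfold v0 v1
  rw [seg_add, zero_add, om_append, P_append, mul_10, mul_11]
  ring

lemma v_sum (c L : ℝ) (x : ℕ → Bool) (n : ℕ) :
    v0 c L x n + v1 c L x n = om c L (seg x 0 n) * s (P (seg x 0 n)) := by
  unfold v0 v1 s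
  ring

lemma v_ratio (h : Ext c L K x k0) (n : ℕ) :
    v0 c L x n ≤ (k0 + 1) * v1 c L x n ∧ v1 c L x n ≤ (k0 + 1) * v0 c L x n := by
  have h1 := ratio_all h.run 0 n (fun M => (M 0 0 + M 0 1, M 1 0 + M 1 1)) (fun b l => by
    refine ⟨add_nonneg (P_NN l).a (P_NN l).b, add_nonneg (P_NN l).c (P_NN l).d, ?_, ?_⟩
    · show P (b :: l) 0 0 + P (b :: l) 0 1 = _
      rw [P_cons, cons_00, cons_01]
      split_ifs
      · rfl
      · ring
    · show P (b :: l) 1 0 + P (b :: l) 1 1 = _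
      rw [P_cons, cons_10, cons_11]
      split_ifs
      · ring
      · rfl) (Or.inr (by simp))
  have h2 := om_pos c L (seg x 0 n)
  obtain ⟨ha, hb⟩ := h1
  unfold v0 v1
  constructor
  · have := mul_le_mul_of_nonneg_left ha h2.le
    nlinarith
  · have := mul_le_mul_of_nonneg_left hb h2.le
    nlinarith

/-- the lower bound of the entries of the orbit -/
noncomputable def lo (K : ℝ) (k0 : ℕ) : ℝ := Real.exp (-(2 * K)) / (k0 + 2)

lemma lo_pos (K : ℝ) (k0 : ℕ) : 0 < lo K k0 := by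
  unfold lo; positivity

lemma v0_nonneg (c L : ℝ) (x : ℕ → Bool) (n : ℕ) : 0 ≤ v0 c L x n :=
  mul_nonneg (om_pos _ _ _).le (add_nonneg (P_NN _).a (P_NN _).b)
lemma v1_nonneg (c L : ℝ) (x : ℕ → Bool) (n : ℕ) : 0 ≤ v1 c L x n :=
  mul_nonneg (om_pos _ _ _).le (add_nonneg (P_NN _).c (P_NN _).d)

lemma v_box (h : Ext c L K x k0) (n : ℕ) :
    (lo K k0 ≤ v0 c L x n ∧ v0 c L x n ≤ Real.exp K) ∧
    (lo K k0 ≤ v1 c L x n ∧ v1 c L x n ≤ Real.exp K) := by
  obtain ⟨r1, r2⟩ := v_ratio h n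
  have h1 := v_sum c L x n
  have h2 := h.om_s_low 0 n
  have h3 := h.om_s_up (seg x 0 n)
  rw [← h1] at h2 h3
  have h4 := v0_nonneg c L x n
  have h5 := v1_nonneg c L x n
  have hk : (0 : ℝ) < (k0 : ℝ) + 2 := by positivity
  refine ⟨⟨?_, by linarith⟩, ⟨?_, by linarith⟩⟩
  · unfold lo
    rw [div_le_iff₀ hk]
    nlinarith
  · unfold lo
    rw [div_le_iff₀ hk]
    nlinarith

theorem close_return (h : Ext c L K x k0) {ε : ℝ} (hε : 0 < ε) :
    ∃ i, ∀ n, ∃ j ≥ n, (1 - ε) * v0 c L x i ≤ v0 c L x j ∧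
      (1 - ε) * v1 c L x i ≤ v1 c L x j := by
  have hc : IsCompact (Set.Icc (lo K k0) (Real.exp K) ×ˢ Set.Icc (lo K k0) (Real.exp K)) :=
    isCompact_Icc.prod isCompact_Icc
  obtain ⟨a, -, φ, hφ, ht⟩ := hc.tendsto_subseq
    (x := fun n => (v0 c L x n, v1 c L x n)) (fun n => by
      obtain ⟨⟨h1, h2⟩, h3, h4⟩ := v_box h n
      exact ⟨⟨h1, h2⟩, ⟨h3, h4⟩⟩)
  have ht0 : Tendsto (fun n => v0 c L x (φ n)) atTop (𝓝 a.1) :=
    (continuous_fst.tendsto a).comp ht
  have ht1 : Tendsto (fun n => v1 c L x (φ n)) atTop (𝓝 a.2) :=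
    (continuous_snd.tendsto a).comp ht
  have hl := lo_pos K k0
  have hδ : 0 < ε * lo K k0 / 2 := by positivity
  obtain ⟨N0, hN0⟩ := (Metric.tendsto_atTop.1 ht0) _ hδ
  obtain ⟨N1, hN1⟩ := (Metric.tendsto_atTop.1 ht1) _ hδ
  set N := max N0 N1
  refine ⟨φ N, fun n => ⟨φ (max N n), (le_max_right N n).trans (hφ.id_le _), ?_⟩⟩
  have a1 := hN0 N (le_max_left _ _)
  have a2 := hN1 N (le_max_right _ _)
  have b1 := hN0 (max N n) ((le_max_left _ _).trans (le_max_left _ _))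
  have b2 := hN1 (max N n) ((le_max_right _ _).trans (le_max_left _ _))
  rw [Real.dist_eq, abs_lt] at a1 a2 b1 b2
  obtain ⟨⟨h1, h2⟩, h3, h4⟩ := v_box h (φ N)
  constructor
  · nlinarith
  · nlinarith

/-- the trace of a matrix with a positive vector that grows -/
lemma trace_ge {T : M2} (hT : NN T) (hd : 0 ≤ T 0 0 * T 1 1 - T 0 1 * T 1 0) {v w θ : ℝ}
    (hv : 0 < v) (hw : 0 < w) (hθ : 0 < θ) (h0 : θ * v ≤ T 0 0 * v + T 0 1 * w)
    (h1 : θ * w ≤ T 1 0 * v + T 1 1 * w) : θ ≤ T 0 0 + T 1 1 := by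
  obtain ⟨a, b, c, d⟩ := hT
  by_contra hcon
  push Not at hcon
  have h2 : 0 < θ - T 0 0 := by linarith
  have h3 : 0 < θ - T 1 1 := by linarith
  have h4 : (θ - T 0 0) * v ≤ T 0 1 * w := by linarith
  have h5 : (θ - T 1 1) * w ≤ T 1 0 * v := by linarith
  have h6 : ((θ - T 0 0) * v) * ((θ - T 1 1) * w) ≤ (T 0 1 * w) * (T 1 0 * v) :=
    mul_le_mul h4 h5 (by positivity) (by positivity)
  have h7 : (θ - T 0 0) * (θ - T 1 1) ≤ T 0 1 * T 1 0 := by
    have : ((θ - T 0 0) * (θ - T 1 1)) * (v * w) ≤ (T 0 1 * T 1 0) * (v * w) := by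
      calc _ = ((θ - T 0 0) * v) * ((θ - T 1 1) * w) := by ring
        _ ≤ _ := h6
        _ = _ := by ring
    exact le_of_mul_le_mul_right this (by positivity)
  have h8 : θ * (θ - (T 0 0 + T 1 1)) ≤ 0 := by nlinarith
  have h9 : 0 < θ * (θ - (T 0 0 + T 1 1)) := mul_pos hθ (by linarith)
  linarith

/-- the identity behind the exchange of two words -/
lemma trace_identity (H Y Z : M2) (hH : H 0 0 * H 1 1 - H 0 1 * H 1 0 = 1) :
    ((H * (LA true * (Y * LA false))) 0 0 + (H * (LA true * (Y * LA false))) 1 1) *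
      ((H * (LA false * (Z * LA true))) 0 0 + (H * (LA false * (Z * LA true))) 1 1) =
    (((H * (LA true * (Y * LA false))) * (H * (LA false * (Z * LA true)))) 0 0 +
      ((H * (LA true * (Y * LA false))) * (H * (LA false * (Z * LA true)))) 1 1) +
    (Z 0 0 * s Y + Z 0 1 * Y 0 1 + Z 0 1 * Y 1 1 + Z 1 0 * Y 1 0 + Z 1 0 * Y 1 1 +
      Z 1 1 * Y 1 1) := by
  simp only [mul_00, mul_01, mul_10, mul_11, LA_true, LA_false, Matrix.of_apply,
    Matrix.cons_val', Matrix.cons_val_zero, Matrix.cons_val_one, Matrix.cons_val_fin_one, s]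
  generalize H 0 0 = h1 at *
  generalize H 0 1 = h2 at *
  generalize H 1 0 = h3 at *
  generalize H 1 1 = h4 at *
  generalize Y 0 0 = y1 at *
  generalize Y 0 1 = y2 at *
  generalize Y 1 0 = y3 at *
  generalize Y 1 1 = y4 at *
  generalize Z 0 0 = z1 at *
  generalize Z 0 1 = z2 at *
  generalize Z 1 0 = z3 at *
  generalize Z 1 1 = z4 at *
  have key : (z1 * (y1 + y2 + y3 + y4) + z2 * y2 + z2 * y4 + z3 * y3 + z3 * y4 + z4 * y4) =
    (h1 * h4 - h2 * h3) *
      (z1 * (y1 + y2 + y3 + y4) + z2 * y2 + z2 * y4 + z3 * y3 + z3 * y4 + z4 * y4) := by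
    rw [hH, one_mul]
  rw [key]
  ring

lemma tr_comm (M N : M2) : (M * N) 0 0 + (M * N) 1 1 = (N * M) 0 0 + (N * M) 1 1 := by
  simp only [mul_00, mul_11]
  ring

lemma nu_pos (h : IsExp c L K) : 0 < min L (L - c) := by
  obtain ⟨h1, h2⟩ := L_pos h
  rw [lt_min_iff]
  exact ⟨h1, by linarith⟩

lemma exists_small {ν δ : ℝ} (hν : 0 < ν) (hδ : 0 < δ) :
    ∃ l : ℕ, ∀ n : ℕ, l ≤ n → Real.exp (-(ν * n)) ≤ δ := by
  obtain ⟨l, hl⟩ := exists_nat_ge (-Real.log δ / ν)
  refine ⟨l, fun n hn => ?_⟩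
  rw [div_le_iff₀ hν] at hl
  have h1 : (l : ℝ) ≤ n := by exact_mod_cast hn
  rw [← Real.exp_log hδ, Real.exp_le_exp]
  nlinarith

theorem no_split (h : Ext c L K x k0) (w : List Bool)
    (h0 : ∀ N, ∃ i ≥ N, seg x i (w.length + 2) = false :: (w ++ [false]))
    (h1 : ∀ N, ∃ i ≥ N, seg x i (w.length + 2) = true :: (w ++ [true])) : False := by
  have hν := nu_pos h.exp
  set ν := min L (L - c) with hνdef
  set p0 : List Bool := false :: (w ++ [false]) with hp0
  set p1 : List Bool := true :: (w ++ [true]) with hp1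
  set E := Real.exp (-(2 * K)) with hE
  have hE0 : 0 < E := Real.exp_pos _
  set κ := om c L p0 * om c L p1 * E ^ 3 / ((k0 : ℝ) + 2) ^ 4 with hκ
  have hk : (0 : ℝ) < (k0 : ℝ) + 2 := by positivity
  have hop0 := om_pos c L p0
  have hop1 := om_pos c L p1
  have hκ0 : 0 < κ := by positivity
  set δ := min 1 (κ / 8) with hδ
  have hδ0 : 0 < δ := by rw [hδ, lt_min_iff]; exact ⟨one_pos, by positivity⟩
  have hδ1 : δ ≤ 1 := min_le_left _ _
  have hδ2 : δ ≤ κ / 8 := min_le_right _ _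
  obtain ⟨ℓ, hℓ⟩ := exists_small hν hδ0
  set ε := min (1 / 2) (κ / 4) with hε
  have hε0 : 0 < ε := by rw [hε, lt_min_iff]; exact ⟨by norm_num, by positivity⟩
  have hε1 : ε ≤ 1 / 2 := min_le_left _ _
  have hε2 : ε ≤ κ / 4 := min_le_right _ _
  obtain ⟨i, hi⟩ := close_return h hε0
  set q := w.length + 2 with hq
  obtain ⟨a, ha, hpa⟩ := h0 (i + (k0 + 1))
  obtain ⟨b, hb, hpb⟩ := h1 (a + q + ℓ)
  obtain ⟨j, hj, hj0, hj1⟩ := hi (b + q + (k0 + 1 + ℓ))
  obtain ⟨r2, rfl⟩ := Nat.exists_eq_add_of_le (show i ≤ a by omega)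
  obtain ⟨y, rfl⟩ := Nat.exists_eq_add_of_le (show i + r2 + q ≤ b by omega)
  obtain ⟨r1, rfl⟩ := Nat.exists_eq_add_of_le (show i + r2 + q + y + q ≤ j by omega)
  have hr2 : k0 + 1 ≤ r2 := by omega
  have hy : ℓ ≤ y := by omega
  have hr1 : k0 + 1 + ℓ ≤ r1 := by omega
  set R1 := seg x (i + r2 + q + y + q) r1 with hR1
  set R2 := seg x i r2 with hR2
  set Y := seg x (i + r2 + q) y with hY
  have hW : seg x i (r2 + q + y + q + r1) = R1 ++ (p1 ++ (Y ++ (p0 ++ R2))) := by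
    rw [seg_add x i (r2 + q + y + q) r1, seg_add x i (r2 + q + y) q, seg_add x i (r2 + q) y,
      seg_add x i r2 q]
    simp only [← add_assoc]
    rw [hpa, hpb]
  set W := R1 ++ (p1 ++ (Y ++ (p0 ++ R2))) with hWdef
  have e0 : i + r2 + q + y + q + r1 = i + (r2 + q + y + q + r1) := by ring
  rw [e0, v0_add, hW] at hj0
  rw [e0, v1_add, hW] at hj1
  have hoW := om_pos c L W
  -- the trace of the window
  have htr : 1 - ε ≤ om c L W * (P W 0 0 + P W 1 1) := by
    obtain ⟨⟨b1, -⟩, b2, -⟩ := v_box h i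
    have hlo := lo_pos K k0
    obtain ⟨na, nb, nc, nd⟩ := P_NN W
    have := trace_ge (T := om c L W • P W) (v := v0 c L x i) (w := v1 c L x i) (θ := 1 - ε)
      ⟨by rw [Matrix.smul_apply]; positivity, by rw [Matrix.smul_apply]; positivity,
        by rw [Matrix.smul_apply]; positivity, by rw [Matrix.smul_apply]; positivity⟩
      (by
        simp only [Matrix.smul_apply, smul_eq_mul]
        have := det_eq W
        have e : om c L W * P W 0 0 * (om c L W * P W 1 1) -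
          om c L W * P W 0 1 * (om c L W * P W 1 0) =
            om c L W ^ 2 * (P W 0 0 * P W 1 1 - P W 0 1 * P W 1 0) := by ring
        rw [e, this]
        positivity)
      (by linarith) (by linarith) (by linarith)
      (by simp only [Matrix.smul_apply, smul_eq_mul]; linarith)
      (by simp only [Matrix.smul_apply, smul_eq_mul]; linarith)
    simp only [Matrix.smul_apply, smul_eq_mul] at this
    linarith
  -- the two shorter words
  set V1 := w ++ (true :: (Y ++ [false])) with hV1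
  set V2 := w ++ (false :: ((R2 ++ R1) ++ [true])) with hV2
  have hPV1 : P V1 = P w * (LA true * (P Y * LA false)) := by
    rw [hV1, P_append, P_cons, P_append, P_cons, P_nil, mul_one]
  have hPV2 : P V2 = P w * (LA false * ((P R2 * P R1) * LA true)) := by
    rw [hV2, P_append, P_cons, P_append, P_append, P_cons, P_nil, mul_one]
  have hPW : P W = P R1 * ((LA true * (P w * LA true)) * (P Y * ((LA false * (P w * LA false)) *
      P R2))) := by
    rw [hWdef, P_append, P_append, P_append, P_append, hp1, hp0, P_cons, P_append, P_cons, P_nil,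
      mul_one, P_cons, P_append, P_cons, P_nil, mul_one]
  have hcyc : (P V1 * P V2) 0 0 + (P V1 * P V2) 1 1 = P W 0 0 + P W 1 1 := by
    have e1 : P V1 * P V2 = (P w * LA true * P Y * LA false * P w * LA false * P R2) *
        (P R1 * LA true) := by
      rw [hPV1, hPV2]; simp only [mul_assoc]
    have e2 : P W = (P R1 * LA true) *
        (P w * LA true * P Y * LA false * P w * LA false * P R2) := by
      rw [hPW]; simp only [mul_assoc]
    rw [e1, e2, tr_comm]
  have hid := trace_identity (P w) (P Y) (P R2 * P R1) (det_eq w)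
  rw [← hPV1, ← hPV2, hcyc] at hid
  have hom : om c L V1 * om c L V2 = om c L W := by
    have hcons : ∀ (b : Bool) (l : List Bool), om c L (b :: l) = om c L [b] * om c L l := by
      intro b l
      rw [← om_append]; rfl
    rw [hV1, hV2, hWdef, hp0, hp1]
    simp only [om_append, hcons true (Y ++ [false]), hcons false ((R2 ++ R1) ++ [true]),
      hcons true (w ++ [true]), hcons false (w ++ [false])]
    ring
  have hneg : ∀ V : List Bool, c * ones V - L * V.length ≤ 0 := by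
    intro V
    have := exponent_le c L V
    have h2 : 0 ≤ min L (L - c) * (V.length : ℝ) := by positivity
    linarith
  have t1 := trace_le h.exp V1 (hneg V1)
  have t2 := trace_le h.exp V2 (hneg V2)
  change om c L V1 * (P V1 0 0 + P V1 1 1) ≤ 1 + om c L V1 ^ 2 at t1
  change om c L V2 * (P V2 0 0 + P V2 1 1) ≤ 1 + om c L V2 ^ 2 at t2
  have o1 : om c L V1 ≤ δ := by
    refine (om_le c L V1).trans (hℓ _ ?_)
    rw [hV1]
    simp only [List.length_append, List.length_cons, hY, seg_length]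
    omega
  have o2 : om c L V2 ≤ δ := by
    refine (om_le c L V2).trans (hℓ _ ?_)
    rw [hV2]
    simp only [List.length_append, List.length_cons, hR1, hR2, seg_length]
    omega
  have p1' := om_pos c L V1
  have p2' := om_pos c L V2
  have sq1 : om c L V1 ^ 2 ≤ δ := by nlinarith
  have sq2 : om c L V2 ^ 2 ≤ δ := by nlinarith
  have n1 := P_NN V1
  have n2 := P_NN V2
  have prod_le : (om c L V1 * (P V1 0 0 + P V1 1 1)) * (om c L V2 * (P V2 0 0 + P V2 1 1)) ≤
      (1 + δ) * (1 + δ) := by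
    refine mul_le_mul (by linarith) (by linarith) ?_ (by linarith)
    exact mul_nonneg p2'.le (add_nonneg n2.a n2.d)
  have prod_eq : (om c L V1 * (P V1 0 0 + P V1 1 1)) * (om c L V2 * (P V2 0 0 + P V2 1 1)) =
      om c L W * ((P V1 0 0 + P V1 1 1) * (P V2 0 0 + P V2 1 1)) := by
    rw [← hom]; ring
  rw [prod_eq, hid] at prod_le
  -- the gain
  have g1 : s (P R1) ≤ (k0 + 2) ^ 2 * P R1 0 0 := entry_ge h.run _ _ (by omega)
  have g2 : s (P R2) ≤ (k0 + 2) ^ 2 * P R2 0 0 := entry_ge h.run _ _ hr2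
  have l1 : E ≤ om c L R1 * s (P R1) := h.om_s_low _ _
  have l2 : E ≤ om c L R2 * s (P R2) := h.om_s_low _ _
  have l3 : E ≤ om c L Y * s (P Y) := h.om_s_low _ _
  have q1 : E / (k0 + 2) ^ 2 ≤ om c L R1 * P R1 0 0 := by
    rw [div_le_iff₀ (by positivity)]
    have := mul_le_mul_of_nonneg_left g1 (om_pos c L R1).le
    linarith
  have q2 : E / (k0 + 2) ^ 2 ≤ om c L R2 * P R2 0 0 := by
    rw [div_le_iff₀ (by positivity)]
    have := mul_le_mul_of_nonneg_left g2 (om_pos c L R2).le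
    linarith
  have omW : om c L W = om c L R1 * (om c L p1 * (om c L Y * (om c L p0 * om c L R2))) := by
    rw [hWdef, om_append, om_append, om_append, om_append]
  have nR1 := P_NN R1
  have nR2 := P_NN R2
  have nY := P_NN Y
  have nZ := nR2.mul nR1
  have hZ00 : P R2 0 0 * P R1 0 0 ≤ (P R2 * P R1) 0 0 := by
    rw [mul_00]
    have := mul_nonneg nR2.b nR1.c
    linarith
  have gain : κ ≤ om c L W * ((P R2 * P R1) 0 0 * s (P Y)) := by
    have e1 : om c L W * (P R2 0 0 * P R1 0 0 * s (P Y)) =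
        (om c L p0 * om c L p1) * ((om c L R1 * P R1 0 0) * (om c L R2 * P R2 0 0) *
          (om c L Y * s (P Y))) := by
      rw [omW]; ring
    have e2 : (E / (k0 + 2) ^ 2) * (E / (k0 + 2) ^ 2) * E ≤
        (om c L R1 * P R1 0 0) * (om c L R2 * P R2 0 0) * (om c L Y * s (P Y)) := by
      have hq0 : 0 ≤ E / ((k0 : ℝ) + 2) ^ 2 := by positivity
      refine mul_le_mul (mul_le_mul q1 q2 hq0 (hq0.trans q1)) l3 hE0.le ?_
      exact mul_nonneg (hq0.trans q1) (hq0.trans q2)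
    have e3 : κ = (om c L p0 * om c L p1) * ((E / (k0 + 2) ^ 2) * (E / (k0 + 2) ^ 2) * E) := by
      rw [hκ]; field_simp
    calc κ = (om c L p0 * om c L p1) * ((E / (k0 + 2) ^ 2) * (E / (k0 + 2) ^ 2) * E) := e3
      _ ≤ (om c L p0 * om c L p1) * ((om c L R1 * P R1 0 0) * (om c L R2 * P R2 0 0) *
          (om c L Y * s (P Y))) := mul_le_mul_of_nonneg_left e2 (by positivity)
      _ = om c L W * (P R2 0 0 * P R1 0 0 * s (P Y)) := e1.symm
      _ ≤ _ := by
        refine mul_le_mul_of_nonneg_left ?_ hoW.le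
        exact mul_le_mul_of_nonneg_right hZ00 (s_P_pos Y).le
  have rest : 0 ≤ (P R2 * P R1) 0 1 * P Y 0 1 + (P R2 * P R1) 0 1 * P Y 1 1 +
      (P R2 * P R1) 1 0 * P Y 1 0 + (P R2 * P R1) 1 0 * P Y 1 1 +
      (P R2 * P R1) 1 1 * P Y 1 1 := by
    have z2 := nZ.b
    have z3 := nZ.c
    have z4 := nZ.d
    have y2 := nY.b
    have y3 := nY.c
    have y4 := nY.d
    positivity
  have rest' := mul_nonneg hoW.le rest
  have fin : (1 - ε) + κ ≤ (1 + δ) * (1 + δ) := by
    refine le_trans ?_ prod_le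
    nlinarith
  nlinarith

end Pool.Agent.H45.JR
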